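import Pool.Agent.Lib.MP_14a7d6_lc.Bits

/-!
# The inclusion-exclusion algorithm on lists, and its polynomial-time pieces
-/

namespace Pool.Agent.TMLib

open Function

variable {α β γ δ σ : Type} [TrEnc α] [TrEnc β] [TrEnc γ] [TrEnc δ] [TrEnc σ]

/-! ### More list functions -/

theorem PTime.takeWhile {l : α → List γ} {F : α → γ → Bool} (hl : PTime l)
    (hF : PTime (fun p : α × γ => F p.1 p.2)) : PTime (fun a => (l a).takeWhile (F a)) := by
  have key : ∀ (f : γ → Bool) (l : List γ),
      l.foldr (fun c acc => if f c = true then c :: acc else []) [] = l.takeWhile f := by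
    intro f l
    induction l with
    | nil => rfl
    | cons c l ih =>
      rw [List.foldr_cons, ih, List.takeWhile_cons]
  have h := PTime.foldr
    (F := fun (a : α) (c : γ) (acc : List γ) => if F a c = true then c :: acc else [])
    (g := fun _ => []) hl (by fun_prop)
    (PTime.ite (hF.comp' (f := fun p : α × γ × List γ => (p.1, p.2.1)) (by fun_prop))
      (by fun_prop) (by fun_prop))
    (fun a => sz (l a)) hl.pb_sz ?_
  · exact h.of_eq (fun a => (key _ _).symm)
  · intro a l₁ l₂ h
    rw [key, h]
    have h1 := sz_append l₁ l₂
    have h2 := sz_append (l₂.takeWhile (F a)) (l₂.dropWhile (F a))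
    rw [List.takeWhile_append_dropWhile] at h2
    have h3 := one_le_sz l₁
    have h4 := one_le_sz (l₂.dropWhile (F a))
    omega

theorem PTime.dropWhile {l : α → List γ} {F : α → γ → Bool} (hl : PTime l)
    (hF : PTime (fun p : α × γ => F p.1 p.2)) : PTime (fun a => (l a).dropWhile (F a)) := by
  refine (PTime.drop (PTime.length (PTime.takeWhile hl hF)) hl).of_eq (fun a => ?_)
  induction l a with
  | nil => rfl
  | cons c l ih =>
    by_cases h : F a c = true
    · simp [h, ih]
    · simp [h]

@[fun_prop] theorem PTime.range {n : α → ℕ} (hn : PTime n) :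
    PTime (fun a => List.range (n a)) := by
  have key : ∀ (i : ℕ), (fun (s : ℕ × List ℕ) => (s.1 + 1, s.1 :: s.2))^[i] (0, []) =
      (i, (List.range i).reverse) := by
    intro i
    induction i with
    | zero => rfl
    | succ i ih => rw [Function.iterate_succ_apply', ih, List.range_succ]; simp
  have h := PTime.iterate (F := fun (_ : α) (s : ℕ × List ℕ) => (s.1 + 1, s.1 :: s.2))
    (g := fun _ => (0, [])) hn (by fun_prop) (by fun_prop)
    (fun a => 2 * n a + 1 + (n a * (2 * n a + 1 + 1) + 1) + 1)
    (((((PB.const 2).mul (PB.nat hn)).add (PB.const 1)).add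
      (((PB.nat hn).mul ((((PB.const 2).mul (PB.nat hn)).add (PB.const 1)).add
      (PB.const 1))).add (PB.const 1))).add (PB.const 1)) ?_
  · exact h.snd.reverse.of_eq (fun a => by rw [key]; simp)
  · intro a i hi
    rw [key]
    simp only [sz_prod, sz_nat, sz_reverse]
    have : sz (List.range i) ≤ n a * (2 * n a + 1 + 1) + 1 := by
      refine (sz_le_of_forall _ (2 * n a + 1) ?_).trans ?_
      · intro j hj
        have := List.mem_range.1 hj
        rw [sz_nat]; omega
      · rw [List.length_range]
        gcongr
    omega

/-! ### The algorithm -/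

/-- Sum of the numbers of `B` selected by `row`. -/
def sumRow (zero row : List Bool) (B : List (List Bool)) : List Bool :=
  (row.zip B).foldl (fun acc p => if p.1 = true then addc false acc p.2 else acc) zero

theorem length_sumRow_aux (l : List (Bool × List Bool)) : ∀ zero : List Bool,
    (l.foldl (fun acc p => if p.1 = true then addc false acc p.2 else acc) zero).length =
      zero.length := by
  induction l with
  | nil => intro zero; rfl
  | cons p l ih =>
    intro zero
    rw [List.foldl_cons, ih]
    by_cases h : p.1 = true <;> simp [h]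

@[simp] theorem length_sumRow (zero row : List Bool) (B : List (List Bool)) :
    (sumRow zero row B).length = zero.length := length_sumRow_aux _ _

@[fun_prop] theorem PTime.sumRow {z row : α → List Bool} {B : α → List (List Bool)}
    (hz : PTime z) (hr : PTime row) (hB : PTime B) :
    PTime (fun a => TMLib.sumRow (z a) (row a) (B a)) := by
  refine PTime.foldl
    (F := fun (_ : α) (acc : List Bool) (p : Bool × List Bool) =>
      if p.1 = true then TMLib.addc false acc p.2 else acc)
    (g := z) (l := fun a => (row a).zip (B a)) (by fun_prop) hz (by fun_prop)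
    (fun a => 4 * (z a).length + 1) (((PB.const 4).mul (PB.length hz)).add (PB.const 1)) ?_
  intro a l₁ l₂ _
  refine (sz_bools_le _).trans ?_
  rw [length_sumRow_aux]

/-- One step of the tree recursion. -/
def treeStep (zero : List Bool) (adj X B : List (List Bool)) : List (List Bool) :=
  (adj.zip (X.zip B)).map (fun p => addc false p.2.1 (mulb p.2.2 (sumRow zero p.1 B)))

@[fun_prop] theorem PTime.treeStep {z : α → List Bool} {adj X B : α → List (List Bool)}
    (hz : PTime z) (ha : PTime adj) (hX : PTime X) (hB : PTime B) :
    PTime (fun a => TMLib.treeStep (z a) (adj a) (X a) (B a)) :=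
  PTime.map (F := fun a (p : List Bool × List Bool × List Bool) =>
    TMLib.addc false p.2.1 (TMLib.mulb p.2.2 (TMLib.sumRow (z a) p.1 (B a))))
    (by fun_prop) (by fun_prop)

/-- The tree recursion. -/
def treeVec (n : ℕ) (zero : List Bool) (adj X : List (List Bool)) : List (List Bool) :=
  (treeStep zero adj X)^[n] (X.map (fun _ => zero))

theorem sz_treeStep_le (zero : List Bool) (adj X B : List (List Bool)) :
    sz (treeStep zero adj X B) ≤ X.length * (4 * sz X + 4 * sz zero + 1 + 1) + 1 := by
  unfold treeStep
  refine (sz_le_of_forall _ (4 * sz X + 4 * sz zero + 1) ?_).trans ?_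
  · intro b hb
    obtain ⟨⟨r, x, y⟩, hp, rfl⟩ := List.mem_map.1 hb
    refine (sz_bools_le _).trans ?_
    simp only [length_addc]
    have h1 : (x, y) ∈ X.zip B := (List.of_mem_zip hp).2
    have h2 : sz x ≤ sz X := sz_le_of_mem (List.of_mem_zip h1).1
    have h3 : x.length < sz x := length_lt_sz x
    omega
  · have : ((adj.zip (X.zip B)).map (fun p => addc false p.2.1
        (mulb p.2.2 (sumRow zero p.1 B)))).length ≤ X.length := by
      simp only [List.length_map, List.length_zip]; omega
    gcongr

@[fun_prop] theorem PTime.treeVec {n : α → ℕ} {z : α → List Bool}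
    {adj X : α → List (List Bool)} (hn : PTime n)
    (hz : PTime z) (ha : PTime adj) (hX : PTime X) :
    PTime (fun a => TMLib.treeVec (n a) (z a) (adj a) (X a)) := by
  refine PTime.iterate (F := fun a B => TMLib.treeStep (z a) (adj a) (X a) B)
    (g := fun a => (X a).map (fun _ => z a)) hn
    (PTime.map (F := fun a _ => z a) hX (by fun_prop)) (by fun_prop)
    (fun a => (X a).length * (4 * sz (X a) + 4 * sz (z a) + 1 + 1) + 1)
    (((PB.length hX).mul ((((((PB.const 4).mul hX.pb_sz)).add
      ((PB.const 4).mul hz.pb_sz)).add (PB.const 1)).add (PB.const 1))).add (PB.const 1)) ?_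
  intro a i _
  cases i with
  | zero =>
    rw [Function.iterate_zero_apply]
    refine (sz_le_of_forall _ (sz (z a)) ?_).trans ?_
    · intro b hb
      obtain ⟨p, _, rfl⟩ := List.mem_map.1 hb
      exact le_rfl
    · rw [List.length_map]
      have : sz (z a) + 1 ≤ 4 * sz (X a) + 4 * sz (z a) + 1 + 1 := by omega
      gcongr
  | succ i =>
    rw [Function.iterate_succ_apply']
    exact sz_treeStep_le _ _ _ _

/-- The constants and the input data of the algorithm. -/
abbrev Env := ℕ × (List Bool × List Bool × List Bool × List Bool × List Bool) ×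
  (List (List Bool) × List (List Bool) × List Bool)

namespace Env
variable (e : Env)
/-- number of vertices -/
def n : ℕ := e.1
/-- the number 0 -/
def zero : List Bool := e.2.1.1
/-- the number 1 -/
def one : List Bool := e.2.1.2.1
/-- the number `t` -/
def t : List Bool := e.2.1.2.2.1
/-- the number `1 + t` -/
def onePlus : List Bool := e.2.1.2.2.2.1
/-- the number `-1` -/
def minusOne : List Bool := e.2.1.2.2.2.2
/-- adjacency matrix -/
def adj : List (List Bool) := e.2.2.1
/-- membership matrix -/
def memb : List (List Bool) := e.2.2.2.1
/-- indicator of the free vertices -/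
def free : List Bool := e.2.2.2.2
end Env

@[fun_prop] theorem PTime.env_n {f : α → Env} (hf : PTime f) : PTime (fun a => (f a).n) :=
  hf.fst
@[fun_prop] theorem PTime.env_zero {f : α → Env} (hf : PTime f) : PTime (fun a => (f a).zero) :=
  hf.snd.fst.fst
@[fun_prop] theorem PTime.env_one {f : α → Env} (hf : PTime f) : PTime (fun a => (f a).one) :=
  hf.snd.fst.snd.fst
@[fun_prop] theorem PTime.env_t {f : α → Env} (hf : PTime f) : PTime (fun a => (f a).t) :=
  hf.snd.fst.snd.snd.fst
@[fun_prop] theorem PTime.env_onePlus {f : α → Env} (hf : PTime f) :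
    PTime (fun a => (f a).onePlus) :=
  hf.snd.fst.snd.snd.snd.fst
@[fun_prop] theorem PTime.env_minusOne {f : α → Env} (hf : PTime f) :
    PTime (fun a => (f a).minusOne) :=
  hf.snd.fst.snd.snd.snd.snd
@[fun_prop] theorem PTime.env_adj {f : α → Env} (hf : PTime f) : PTime (fun a => (f a).adj) :=
  hf.snd.snd.fst
@[fun_prop] theorem PTime.env_memb {f : α → Env} (hf : PTime f) : PTime (fun a => (f a).memb) :=
  hf.snd.snd.snd.fst
@[fun_prop] theorem PTime.env_free {f : α → Env} (hf : PTime f) : PTime (fun a => (f a).free) :=
  hf.snd.snd.snd.snd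

/-- The value attached to the terminal set with indicator `mi`, for the vertex set `X`. -/
def rootVal (e : Env) (X mi : List Bool) : List Bool :=
  sumRow e.zero mi (treeVec e.n e.zero e.adj
    ((X.zip (e.free.zip mi)).map (fun p =>
      if (p.1 && (p.2.1 || p.2.2)) = true then e.t else e.zero)))

@[fun_prop] theorem PTime.rootVal {e : α → Env} {X mi : α → List Bool} (he : PTime e)
    (hX : PTime X) (hm : PTime mi) : PTime (fun a => TMLib.rootVal (e a) (X a) (mi a)) := by
  have h : PTime (fun a => ((X a).zip ((e a).free.zip (mi a))).map (fun p =>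
      if (p.1 && (p.2.1 || p.2.2)) = true then (e a).t else (e a).zero)) :=
    PTime.map (F := fun a (p : Bool × Bool × Bool) =>
      if (p.1 && (p.2.1 || p.2.2)) = true then (e a).t else (e a).zero)
      (by fun_prop) (by fun_prop)
  unfold TMLib.rootVal
  fun_prop

/-- The factor of the vertices: sign and free vertices. -/
def baseTerm (e : Env) (X : List Bool) : List Bool :=
  (X.zip e.free).foldl (fun acc p => mulb acc
    (if p.1 = true then (if p.2 = true then e.onePlus else e.one) else e.minusOne)) e.one

theorem length_foldl_mulb {ι : Type} (f : ι → List Bool) (l : List ι) : ∀ acc : List Bool,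
    (l.foldl (fun acc p => mulb acc (f p)) acc).length = acc.length := by
  induction l with
  | nil => intro acc; rfl
  | cons p l ih => intro acc; rw [List.foldl_cons, ih]; simp

@[fun_prop] theorem PTime.baseTerm {e : α → Env} {X : α → List Bool} (he : PTime e)
    (hX : PTime X) : PTime (fun a => TMLib.baseTerm (e a) (X a)) := by
  refine PTime.foldl
    (F := fun (a : α) (acc : List Bool) (p : Bool × Bool) => TMLib.mulb acc
      (if p.1 = true then (if p.2 = true then (e a).onePlus else (e a).one) else (e a).minusOne))
    (g := fun a => (e a).one) (l := fun a => (X a).zip (e a).free) (by fun_prop) (by fun_prop)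
    (by fun_prop) (fun a => 4 * (e a).one.length + 1)
    (((PB.const 4).mul (PB.length (by fun_prop))).add (PB.const 1)) ?_
  intro a l₁ l₂ _
  refine (sz_bools_le _).trans ?_
  rw [length_foldl_mulb (fun p : Bool × Bool => if p.1 = true then
    (if p.2 = true then (e a).onePlus else (e a).one) else (e a).minusOne)]

/-- The term of the inclusion-exclusion sum for the vertex set `X`. -/
def termOf (e : Env) (X : List Bool) : List Bool :=
  e.memb.foldl (fun acc mi => mulb acc (rootVal e X mi)) (baseTerm e X)

theorem length_termOf (e : Env) (X : List Bool) : (termOf e X).length = e.one.length := by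
  unfold termOf baseTerm
  rw [length_foldl_mulb, length_foldl_mulb (fun p : Bool × Bool => if p.1 = true then
    (if p.2 = true then e.onePlus else e.one) else e.minusOne)]

@[fun_prop] theorem PTime.termOf {e : α → Env} {X : α → List Bool} (he : PTime e)
    (hX : PTime X) : PTime (fun a => TMLib.termOf (e a) (X a)) := by
  have hb : ∀ a, (TMLib.baseTerm (e a) (X a)).length = (e a).one.length := by
    intro a
    unfold TMLib.baseTerm
    rw [length_foldl_mulb (fun p : Bool × Bool => if p.1 = true then
    (if p.2 = true then (e a).onePlus else (e a).one) else (e a).minusOne)]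
  refine PTime.foldl
    (F := fun (a : α) (acc mi : List Bool) => TMLib.mulb acc (TMLib.rootVal (e a) (X a) mi))
    (g := fun a => TMLib.baseTerm (e a) (X a)) (l := fun a => (e a).memb) (by fun_prop)
    (by fun_prop)
    (by fun_prop) (fun a => 4 * (e a).one.length + 1)
    (((PB.const 4).mul (PB.length (by fun_prop))).add (PB.const 1)) ?_
  intro a l₁ l₂ _
  refine (sz_bools_le _).trans ?_
  rw [length_foldl_mulb, hb]

/-- State of the main loop: constants, current vertex set, accumulator. -/
abbrev LState := Env × List Bool × List Bool

/-- Test of the main loop. -/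
def loopTest (s : LState) : Bool := !(s.2.1.reverse.headD false)

/-- Body of the main loop. -/
def loopStep (s : LState) : LState :=
  (s.1, addc true s.2.1 [], addc false s.2.2 (termOf s.1 s.2.1))

theorem ptime_loopTest : PTime loopTest := by
  unfold loopTest
  fun_prop

theorem ptime_loopStep : PTime loopStep := by
  unfold loopStep
  fun_prop

/-! ### Parsing the input -/

/-- Length of the initial block of ones. -/
def ones (w : List Bool) : ℕ := (w.takeWhile (fun b => b)).length
/-- What remains after the initial block of ones and the following bit. -/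
def afterOnes (w : List Bool) : List Bool := (w.dropWhile (fun b => b)).tail
/-- Cut a list into rows. -/
def rows (k len : ℕ) (w : List Bool) : List (List Bool) :=
  (List.range k).map (fun i => (w.drop (i * len)).take len)

@[fun_prop] theorem PTime.ones {w : α → List Bool} (hw : PTime w) :
    PTime (fun a => TMLib.ones (w a)) :=
  PTime.length (PTime.takeWhile (F := fun _ b => b) hw (by fun_prop))

@[fun_prop] theorem PTime.afterOnes {w : α → List Bool} (hw : PTime w) :
    PTime (fun a => TMLib.afterOnes (w a)) :=
  PTime.tail (PTime.dropWhile (F := fun _ b => b) hw (by fun_prop))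

@[fun_prop] theorem PTime.rows {k len : α → ℕ} {w : α → List Bool} (hk : PTime k)
    (hlen : PTime len) (hw : PTime w) : PTime (fun a => TMLib.rows (k a) (len a) (w a)) :=
  PTime.map (F := fun a i => ((w a).drop (i * len a)).take (len a)) (by fun_prop) (by fun_prop)

/-- Number of bits used for the coefficients. -/
def bigM (n : ℕ) : ℕ := n * n + 3 * n + 1
/-- Total number of bits. -/
def bigQ (n : ℕ) : ℕ := bigM n * (n + 1)

@[fun_prop] theorem PTime.bigM {n : α → ℕ} (hn : PTime n) : PTime (fun a => TMLib.bigM (n a)) := by
  unfold TMLib.bigM; fun_prop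
@[fun_prop] theorem PTime.bigQ {n : α → ℕ} (hn : PTime n) : PTime (fun a => TMLib.bigQ (n a)) := by
  unfold TMLib.bigQ; fun_prop

/-- The number 0. -/
def cZero (n : ℕ) : List Bool := List.replicate (bigQ n) false
/-- The number 1. -/
def cOne (n : ℕ) : List Bool := (true :: cZero n).take (bigQ n)
/-- The number `t = 2 ^ M`. -/
def cT (n : ℕ) : List Bool := (List.replicate (bigM n) false ++ cOne n).take (bigQ n)
/-- The number `-1`. -/
def cMinusOne (n : ℕ) : List Bool := List.replicate (bigQ n) true

@[fun_prop] theorem PTime.cZero {n : α → ℕ} (hn : PTime n) :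
    PTime (fun a => TMLib.cZero (n a)) := by
  unfold TMLib.cZero; fun_prop
@[fun_prop] theorem PTime.cOne {n : α → ℕ} (hn : PTime n) :
    PTime (fun a => TMLib.cOne (n a)) := by
  unfold TMLib.cOne; fun_prop
@[fun_prop] theorem PTime.cT {n : α → ℕ} (hn : PTime n) :
    PTime (fun a => TMLib.cT (n a)) := by
  unfold TMLib.cT; fun_prop
@[fun_prop] theorem PTime.cMinusOne {n : α → ℕ} (hn : PTime n) :
    PTime (fun a => TMLib.cMinusOne (n a)) := by
  unfold TMLib.cMinusOne; fun_prop

/-- The environment for a number `n` of vertices, an adjacency matrix and a membership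
matrix. -/
def mkEnv (n : ℕ) (adj memb : List (List Bool)) : Env :=
  (n, (cZero n, cOne n, cT n, addc false (cOne n) (cT n), cMinusOne n),
    (adj, memb, (List.range n).map (fun v => !(memb.any (fun mi => mi.getD v false)))))

@[fun_prop] theorem PTime.mkEnv {n : α → ℕ} {adj memb : α → List (List Bool)} (hn : PTime n)
    (ha : PTime adj) (hm : PTime memb) :
    PTime (fun a => TMLib.mkEnv (n a) (adj a) (memb a)) := by
  have h : PTime (fun a => (List.range (n a)).map (fun v =>
      !((memb a).any (fun mi => mi.getD v false)))) :=
    PTime.map (F := fun a v => !((memb a).any (fun mi => mi.getD v false))) (by fun_prop)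
      (PTime.not (PTime.any (l := fun p : α × ℕ => memb p.1) (F := fun p mi => mi.getD p.2 false)
        (by fun_prop) (by fun_prop)))
  unfold TMLib.mkEnv
  fun_prop

/-- The environment read from the input word. -/
def envOf (w : List Bool) : Env :=
  mkEnv (ones w) (rows (ones w) (ones w) (afterOnes (afterOnes w)))
    (rows (ones (afterOnes w)) (ones w)
      ((afterOnes (afterOnes w)).drop (ones w * ones w)))

@[fun_prop] theorem PTime.envOf {w : α → List Bool} (hw : PTime w) :
    PTime (fun a => TMLib.envOf (w a)) := by
  unfold TMLib.envOf; fun_prop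

/-- Initial state of the main loop. -/
def initState (w : List Bool) : LState :=
  (envOf w, List.replicate (ones w + 1) false, cZero (ones w))

@[fun_prop] theorem PTime.initState {w : α → List Bool} (hw : PTime w) :
    PTime (fun a => TMLib.initState (w a)) := by
  unfold TMLib.initState; fun_prop

/-- Read off the answer. -/
def finish (s : LState) : List Bool := [s.2.2.any (fun b => b)]

theorem ptime_finish : PTime finish := by
  unfold finish
  have : PTime (fun s : LState => s.2.2.any (fun b => b)) :=
    PTime.any (F := fun _ b => b) (by fun_prop) (by fun_prop)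
  fun_prop

end Pool.Agent.TMLib
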