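import Pool.Agent.Lib.MP_14a7d6_lc.PLists

/-!
# Arithmetic modulo `2 ^ Q` on lists of bits, in polynomial time
-/

namespace Pool.Agent.TMLib

open Function

variable {α β γ δ σ : Type} [TrEnc α] [TrEnc β] [TrEnc γ] [TrEnc δ] [TrEnc σ]

/-- The value of a list of bits, least significant bit first. -/
def val : List Bool → ℕ
  | [] => 0
  | b :: l => b.toNat + 2 * val l

@[simp] theorem val_nil : val [] = 0 := rfl
@[simp] theorem val_cons (b : Bool) (l : List Bool) : val (b :: l) = b.toNat + 2 * val l := rfl

theorem val_headD_tail (l : List Bool) : val l = (l.headD false).toNat + 2 * val l.tail := by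
  cases l <;> simp

theorem val_lt (l : List Bool) : val l < 2 ^ l.length := by
  induction l with
  | nil => simp
  | cons b l ih =>
    have : b.toNat ≤ 1 := Bool.toNat_le b
    simp only [val_cons, List.length_cons, pow_succ]
    omega

theorem val_replicate_false (n : ℕ) : val (List.replicate n false) = 0 := by
  induction n with
  | zero => rfl
  | succ n ih => simp [List.replicate_succ, ih]

theorem val_replicate_true (n : ℕ) : val (List.replicate n true) + 1 = 2 ^ n := by
  induction n with
  | zero => rfl
  | succ n ih =>
    simp only [List.replicate_succ, val_cons, Bool.toNat_true, pow_succ]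
    omega

theorem val_append (l l' : List Bool) : val (l ++ l') = val l + 2 ^ l.length * val l' := by
  induction l with
  | nil => simp
  | cons b l ih =>
    simp only [List.cons_append, val_cons, ih, List.length_cons, pow_succ]
    ring

theorem mod_helper (s x k : ℕ) (hs : s ≤ 1) :
    (s + 2 * x) % (2 ^ k * 2) = s + 2 * (x % 2 ^ k) := by
  have h1 : x % 2 ^ k < 2 ^ k := Nat.mod_lt _ (by positivity)
  have h2 := Nat.div_add_mod x (2 ^ k)
  have h3 : s + 2 * x = (s + 2 * (x % 2 ^ k)) + (2 ^ k * 2) * (x / 2 ^ k) := by
    conv_lhs => rw [← h2]
    ring
  rw [h3, Nat.add_mul_mod_self_left]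
  exact Nat.mod_eq_of_lt (by omega)

theorem val_take (l : List Bool) (n : ℕ) : val (l.take n) = val l % 2 ^ n := by
  induction l generalizing n with
  | nil => simp
  | cons b l ih =>
    cases n with
    | zero => simp [Nat.mod_one]
    | succ n =>
      simp only [List.take_succ_cons, val_cons, ih, pow_succ]
      rw [mod_helper _ _ _ (Bool.toNat_le b)]

theorem any_iff_val (l : List Bool) : l.any (fun b => b) = true ↔ val l ≠ 0 := by
  induction l with
  | nil => simp
  | cons b l ih =>
    cases b
    · simp only [List.any_cons, Bool.false_or, ih, val_cons, Bool.toNat_false]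
      omega
    · simp

/-- Addition with carry; the result has the length of the first list. -/
def addc : Bool → List Bool → List Bool → List Bool
  | _, [], _ => []
  | c, a :: l, m => (a.xor ((m.headD false).xor c)) ::
      addc ((a && m.headD false) || (c && (a || m.headD false))) l m.tail

@[simp] theorem length_addc (c : Bool) (l m : List Bool) : (addc c l m).length = l.length := by
  induction l generalizing c m with
  | nil => rfl
  | cons a l ih => simp [addc, ih]

theorem val_addc (c : Bool) (l m : List Bool) :
    val (addc c l m) = (val l + val m + c.toNat) % 2 ^ l.length := by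
  induction l generalizing c m with
  | nil => simp [addc, Nat.mod_one]
  | cons a l ih =>
    rw [addc, val_cons, ih, val_headD_tail m, val_cons, List.length_cons, pow_succ]
    generalize m.headD false = b
    generalize val m.tail = y
    generalize val l = x
    have key : ∀ (s : Bool) (c' : Bool) (z : ℕ), z = s.toNat + 2 * (x + y + c'.toNat) →
        s.toNat + 2 * ((x + y + c'.toNat) % 2 ^ l.length) = z % (2 ^ l.length * 2) := by
      intro s c' z hz
      rw [hz, mod_helper _ _ _ (Bool.toNat_le s)]
    apply key
    cases a <;> cases b <;> cases c <;> simp <;> ring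

/-- Multiplication; the result has the length of the first list. -/
def mulb (l m : List Bool) : List Bool :=
  l.foldr (fun x acc => if x = true then addc false (false :: acc) m else false :: acc) []

@[simp] theorem mulb_nil (m : List Bool) : mulb [] m = [] := rfl
theorem mulb_cons (x : Bool) (l m : List Bool) :
    mulb (x :: l) m = if x = true then addc false (false :: mulb l m) m else false :: mulb l m :=
  rfl

@[simp] theorem length_mulb (l m : List Bool) : (mulb l m).length = l.length := by
  induction l with
  | nil => rfl
  | cons x l ih => cases x <;> simp [mulb_cons, ih]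

theorem two_mul_mod (x k : ℕ) : 2 * (x % 2 ^ k) = (2 * x) % 2 ^ (k + 1) := by
  rw [pow_succ, mul_comm (2 ^ k) 2, Nat.mul_mod_mul_left]

theorem val_mulb (l m : List Bool) : val (mulb l m) = (val l * val m) % 2 ^ l.length := by
  induction l with
  | nil => simp [Nat.mod_one]
  | cons x l ih =>
    cases x
    · simp only [mulb_cons]
      simp only [Bool.false_eq_true, if_false, val_cons, Bool.toNat_false, zero_add, ih,
        List.length_cons]
      rw [two_mul_mod, mul_assoc]
    · simp only [mulb_cons, if_true, val_addc, val_cons, Bool.toNat_false, zero_add, ih,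
        List.length_cons, length_mulb, add_zero, Bool.toNat_true]
      rw [two_mul_mod, Nat.mod_add_mod]
      congr 1
      ring

/-- Value modulo `2 ^ Q`. -/
def ev (Q : ℕ) (l : List Bool) : ZMod (2 ^ Q) := (val l : ZMod (2 ^ Q))

theorem natCast_mod_pow (Q x : ℕ) : ((x % 2 ^ Q : ℕ) : ZMod (2 ^ Q)) = (x : ZMod (2 ^ Q)) := by
  rw [ZMod.natCast_mod]

theorem ev_addc {Q : ℕ} (l m : List Bool) (hl : l.length = Q) :
    ev Q (addc false l m) = ev Q l + ev Q m := by
  unfold ev
  rw [val_addc, hl, natCast_mod_pow]
  simp

theorem ev_mulb {Q : ℕ} (l m : List Bool) (hl : l.length = Q) :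
    ev Q (mulb l m) = ev Q l * ev Q m := by
  unfold ev
  rw [val_mulb, hl, natCast_mod_pow]
  simp

theorem ev_eq_zero_iff {Q : ℕ} (l : List Bool) (hl : l.length = Q) :
    ev Q l = 0 ↔ l.any (fun b => b) = false := by
  have h1 := any_iff_val l
  have h2 := val_lt l
  rw [hl] at h2
  unfold ev
  rw [ZMod.natCast_eq_zero_iff]
  constructor
  · intro h
    have : val l = 0 := Nat.eq_zero_of_dvd_of_lt h h2
    by_contra h3
    exact (h1.1 (by simpa using h3)) this
  · intro h
    have : val l = 0 := by
      by_contra h3
      rw [h1.2 h3] at h
      exact absurd h (by simp)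
    rw [this]; exact dvd_zero _

/-! ### Polynomial time -/

/-- `addc` as a left fold. -/
theorem addc_eq_foldl (c : Bool) (l m : List Bool) :
    addc c l m = (l.foldl (fun (s : Bool × List Bool × List Bool) (a : Bool) =>
      ((a && s.2.1.headD false) || (s.1 && (a || s.2.1.headD false)), s.2.1.tail,
        (a.xor ((s.2.1.headD false).xor s.1)) :: s.2.2)) (c, m, [])).2.2.reverse := by
  have key : ∀ (l : List Bool) (c : Bool) (m out : List Bool),
      (l.foldl (fun (s : Bool × List Bool × List Bool) (a : Bool) =>
      ((a && s.2.1.headD false) || (s.1 && (a || s.2.1.headD false)), s.2.1.tail,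
        (a.xor ((s.2.1.headD false).xor s.1)) :: s.2.2)) (c, m, out)).2.2 =
      (addc c l m).reverse ++ out := by
    intro l
    induction l with
    | nil => intro c m out; rfl
    | cons a l ih =>
      intro c m out
      rw [List.foldl_cons, ih]
      simp [addc]
  rw [key]; simp

@[fun_prop] theorem PTime.addc {c : α → Bool} {l m : α → List Bool} (hc : PTime c)
    (hl : PTime l) (hm : PTime m) : PTime (fun a => TMLib.addc (c a) (l a) (m a)) := by
  have h := PTime.foldl
    (F := fun (_ : α) (s : Bool × List Bool × List Bool) (a : Bool) =>
      (((a && s.2.1.headD false) || (s.1 && (a || s.2.1.headD false)), s.2.1.tail,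
        (a.xor ((s.2.1.headD false).xor s.1)) :: s.2.2) : Bool × List Bool × List Bool))
    (g := fun a => (c a, m a, [])) hl (by fun_prop) (by fun_prop)
    (fun a => 3 + (sz (m a) + (4 * (l a).length + 1) + 1) + 1)
    (((PB.const 3).add ((hm.pb_sz.add (((PB.const 4).mul (PB.length hl)).add
      (PB.const 1))).add (PB.const 1))).add (PB.const 1)) ?_
  · exact h.snd.snd.reverse.of_eq (fun a => addc_eq_foldl _ _ _)
  · intro a l₁ l₂ h
    have key : ∀ (l : List Bool) (s : Bool × List Bool × List Bool),
        sz (l.foldl (fun (s : Bool × List Bool × List Bool) (a : Bool) =>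
      (((a && s.2.1.headD false) || (s.1 && (a || s.2.1.headD false)), s.2.1.tail,
        (a.xor ((s.2.1.headD false).xor s.1)) :: s.2.2) : Bool × List Bool × List Bool)) s) ≤
        3 + (sz s.2.1 + (sz s.2.2 + 4 * l.length) + 1) + 1 := by
      intro l
      induction l with
      | nil =>
        intro s
        rw [List.foldl_nil, sz_prod', sz_prod']
        have := sz_bool_le s.1
        simp only [List.length_nil]
        omega
      | cons x l ih =>
        intro s
        rw [List.foldl_cons]
        refine (ih _).trans ?_
        simp only [List.length_cons, sz_cons]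
        have h1 := sz_tail_le s.2.1
        have h2 := sz_bool_le (x ^^ ((s.2.1.headD false) ^^ s.1))
        omega
    refine (key l₁ _).trans ?_
    simp only [sz_nil]
    have : l₁.length ≤ (l a).length := by rw [h]; simp
    omega

@[fun_prop] theorem PTime.mulb {l m : α → List Bool}
    (hl : PTime l) (hm : PTime m) : PTime (fun a => TMLib.mulb (l a) (m a)) := by
  refine PTime.foldr
    (F := fun (a : α) (x : Bool) (acc : List Bool) =>
      if x = true then TMLib.addc false (false :: acc) (m a) else false :: acc)
    (g := fun _ => []) hl (by fun_prop) (by fun_prop)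
    (fun a => 4 * (l a).length + 1) (((PB.const 4).mul (PB.length hl)).add (PB.const 1)) ?_
  intro a l₁ l₂ h
  change sz (TMLib.mulb l₂ (m a)) ≤ _
  refine (sz_bools_le _).trans ?_
  rw [length_mulb, h]
  simp only [List.length_append]
  omega

/-! ### Binary counter -/

/-- The `m` lowest bits of `i`. -/
def natBits : ℕ → ℕ → List Bool
  | 0, _ => []
  | m + 1, i => (decide (i % 2 = 1)) :: natBits m (i / 2)

@[simp] theorem length_natBits (m i : ℕ) : (natBits m i).length = m := by
  induction m generalizing i with
  | zero => rfl
  | succ m ih => simp [natBits, ih]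

theorem val_natBits (m i : ℕ) : val (natBits m i) = i % 2 ^ m := by
  induction m generalizing i with
  | zero => simp [natBits, Nat.mod_one]
  | succ m ih =>
    simp only [natBits, val_cons, ih]
    have h1 : (decide (i % 2 = 1)).toNat = i % 2 := by
      rcases Nat.mod_two_eq_zero_or_one i with h | h <;> simp [h]
    rw [h1, pow_succ, ← mod_helper _ _ _ (by have := Nat.mod_lt i (show 0 < 2 by norm_num); omega)]
    congr 1
    omega

theorem eq_of_val_eq {l l' : List Bool} (h : l.length = l'.length) (hv : val l = val l') :
    l = l' := by
  induction l generalizing l' with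
  | nil =>
    cases l' with
    | nil => rfl
    | cons => simp at h
  | cons b l ih =>
    cases l' with
    | nil => simp at h
    | cons b' l' =>
      simp only [val_cons] at hv
      have hb : b = b' := by
        cases b <;> cases b' <;> simp at hv ⊢ <;> omega
      subst hb
      rw [ih (by simpa using h) (by omega)]

theorem natBits_val (l : List Bool) : natBits l.length (val l) = l := by
  apply eq_of_val_eq
  · simp
  · rw [val_natBits]
    exact Nat.mod_eq_of_lt (val_lt l)

theorem addc_natBits (m i : ℕ) : addc true (natBits m i) [] = natBits m (i + 1) := by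
  apply eq_of_val_eq
  · simp
  · rw [val_addc, val_natBits, val_natBits, length_natBits]
    simp

theorem natBits_zero (m : ℕ) : natBits m 0 = List.replicate m false := by
  apply eq_of_val_eq
  · simp
  · rw [val_natBits, val_replicate_false]; simp

end Pool.Agent.TMLib
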