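import Pool.Agent.Lib.MP_14a7d6_lc.Poly

/-!
# Inclusion-exclusion, and the polynomial of an instance
-/

namespace Pool.Agent.DCS

open MvPolynomial Finset

variable {n k : ℕ}

section inclexcl

variable {R : Type*} [CommRing R]

theorem prod_pow_sub (t : R) (ht : t ^ (n + 1) = 0) (d : Fin n →₀ ℕ) :
    ∏ v, (t ^ d v - 0 ^ d v) = if d = ind univ then t ^ n else 0 := by
  by_cases h0 : ∃ v, d v = 0
  · obtain ⟨v, hv⟩ := h0
    rw [Finset.prod_eq_zero (Finset.mem_univ v) (by rw [hv]; simp), if_neg]
    rintro rfl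
    simp at hv
  · push Not at h0
    have h1 : ∏ v, (t ^ d v - 0 ^ d v) = t ^ (∑ v, d v) := by
      rw [← Finset.prod_pow_eq_pow_sum]
      refine Finset.prod_congr rfl (fun v _ => ?_)
      rw [zero_pow (h0 v), sub_zero]
    rw [h1]
    by_cases hd : d = ind univ
    · rw [if_pos hd]
      congr 1
      rw [hd]
      simp
    · rw [if_neg hd]
      have h2 : ∃ v, 2 ≤ d v := by
        by_contra h3
        push Not at h3
        apply hd
        ext v
        have := h3 v
        have := h0 v
        simp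
        omega
      obtain ⟨v, hv⟩ := h2
      have h3 : n + 1 ≤ ∑ v, d v := by
        have h4 : ∑ w : Fin n, (1 + if w = v then 1 else 0) ≤ ∑ w, d w := by
          refine Finset.sum_le_sum (fun w _ => ?_)
          by_cases hw : w = v
          · subst hw; simpa using hv
          · have := h0 w
            simp [hw]; omega
        rw [Finset.sum_add_distrib] at h4
        simpa using h4
      obtain ⟨m, hm⟩ := Nat.exists_eq_add_of_le h3
      rw [hm, pow_add, ht, zero_mul]

/-- The inclusion-exclusion formula. -/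
theorem incl_excl (t : R) (ht : t ^ (n + 1) = 0) (F : MvPolynomial (Fin n) ℕ) :
    ∑ f : Fin n → Bool, (∏ v, if f v = true then (1 : R) else -1) *
      eval₂ (Nat.castRingHom R) (fun v => if f v = true then t else 0) F =
      ((coeff (ind univ) F : ℕ) : R) * t ^ n := by
  simp_rw [eval₂_eq', Finset.mul_sum]
  rw [Finset.sum_comm]
  have key : ∀ d ∈ F.support, (∑ f : Fin n → Bool, (∏ v, if f v = true then (1 : R) else -1) *
      ((Nat.castRingHom R) (coeff d F) * ∏ v, (if f v = true then t else 0) ^ d v)) =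
      ((coeff d F : ℕ) : R) * (if d = ind univ then t ^ n else 0) := by
    intro d _
    rw [← prod_pow_sub t ht d]
    have h1 : ∏ v, (t ^ d v - 0 ^ d v) = ∑ f : Fin n → Bool, ∏ v,
        ((if f v = true then (1 : R) else -1) * (if f v = true then t else 0) ^ d v) := by
      have h2 : ∀ v : Fin n, (t ^ d v - 0 ^ d v) = ∑ b : Bool,
          ((if b = true then (1 : R) else -1) * (if b = true then t else 0) ^ d v) := by
        intro v
        simp
        ring
      rw [Finset.prod_congr rfl (fun v _ => h2 v), Finset.prod_univ_sum,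
        Fintype.piFinset_univ]
    rw [h1, Finset.mul_sum]
    refine Finset.sum_congr rfl (fun f _ => ?_)
    rw [Finset.prod_mul_distrib]
    simp only [eq_natCast]
    ring
  rw [Finset.sum_congr rfl key]
  by_cases h : ind univ ∈ F.support
  · rw [Finset.sum_eq_single_of_mem _ h]
    · rw [if_pos rfl]
    · intro d _ hd
      rw [if_neg hd, mul_zero]
  · rw [Finset.sum_eq_zero]
    · rw [notMem_support_iff.1 h]; simp
    · intro d hd
      have : d ≠ ind univ := fun h' => h (h' ▸ hd)
      rw [if_neg this, mul_zero]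

end inclexcl

section inst

variable (G : SimpleGraph (Fin n)) [DecidableRel G.Adj] (Z : Fin k → Finset (Fin n))

/-- The vertices which are not terminals. -/
def freeSet : Finset (Fin n) := univ \ univ.biUnion Z

theorem mem_freeSet {v : Fin n} : v ∈ freeSet Z ↔ ∀ i, v ∉ Z i := by
  simp [freeSet]

/-- The polynomial of an instance. -/
noncomputable def bigF : MvPolynomial (Fin n) ℕ :=
  (∏ v ∈ freeSet Z, (1 + X v)) * ∏ i, ∑ v ∈ Z i, treeP G (freeSet Z ∪ Z i) n v

theorem coeff_free_ne {U : Finset (Fin n)} {d : Fin n →₀ ℕ} :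
    coeff d (∏ v ∈ U, (1 + X v) : MvPolynomial (Fin n) ℕ) ≠ 0 ↔
      ∃ T ⊆ U, d = ind T := by
  classical
  rw [coeff_prod_ne]
  constructor
  · rintro ⟨e, he, rfl⟩
    have h1 : ∀ v ∈ U, e v = 0 ∨ e v = Finsupp.single v 1 := by
      intro v hv
      have := he v hv
      rw [coeff_add_ne, coeff_one_ne, coeff_X_ne] at this
      exact this
    refine ⟨U.filter (fun v => e v ≠ 0), Finset.filter_subset _ _, ?_⟩
    ext w
    rw [Finsupp.finsetSum_apply, ind_apply]
    by_cases hw : w ∈ U.filter (fun v => e v ≠ 0)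
    · rw [if_pos hw]
      rw [Finset.mem_filter] at hw
      rw [Finset.sum_eq_single_of_mem w hw.1]
      · rw [(h1 w hw.1).resolve_left hw.2]; simp
      · intro v hv hvw
        rcases h1 v hv with h | h
        · rw [h]; rfl
        · rw [h, Finsupp.single_apply, if_neg hvw]
    · rw [if_neg hw]
      refine Finset.sum_eq_zero (fun v hv => ?_)
      rcases h1 v hv with h | h
      · rw [h]; rfl
      · rw [h, Finsupp.single_apply, if_neg]
        rintro rfl
        apply hw
        rw [Finset.mem_filter]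
        exact ⟨hv, by rw [h]; simp⟩
  · rintro ⟨T, hT, rfl⟩
    refine ⟨fun v => if v ∈ T then Finsupp.single v 1 else 0, ?_, ?_⟩
    · intro v _
      rw [coeff_add_ne, coeff_one_ne, coeff_X_ne]
      by_cases h : v ∈ T <;> simp [h]
    · ext w
      rw [Finsupp.finsetSum_apply, ind_apply]
      have h2 : ∀ v ∈ U, ((if v ∈ T then Finsupp.single v 1 else 0 : Fin n →₀ ℕ)) w =
          if v = w then (if w ∈ T then 1 else 0) else 0 := by
        intro v _
        by_cases h : v ∈ T
        · rw [if_pos h, Finsupp.single_apply]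
          by_cases h' : v = w
          · subst h'; simp [h]
          · simp [h']
        · rw [if_neg h]
          by_cases h' : v = w
          · subst h'; simp [h]
          · simp [h']
      rw [Finset.sum_congr rfl h2, Finset.sum_ite_eq' U w]
      by_cases h : w ∈ T
      · simp [h, hT h]
      · simp [h]

/-- The multilinear coefficient of the polynomial of an instance is nonzero if and only if the
instance has a solution. -/
theorem bigF_coeff_ne (hZ : ∀ i, (Z i).Nonempty) (hZd : Pairwise (fun i j => Disjoint (Z i) (Z j))) :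
    coeff (ind univ) (bigF G Z) ≠ 0 ↔
      ∃ S : Fin k → Finset (Fin n), (∀ i, Z i ⊆ S i ∧ Conn G (S i : Set (Fin n))) ∧
        Pairwise (fun i j => Disjoint (S i) (S j)) := by
  classical
  unfold bigF
  rw [coeff_mul_ne]
  constructor
  · rintro ⟨d₀, d', hsum, h0, h1⟩
    rw [coeff_free_ne] at h0
    rw [coeff_prod_ne] at h1
    obtain ⟨T, hT, rfl⟩ := h0
    obtain ⟨e, he, rfl⟩ := h1
    have hpt : ∀ v, (if v ∈ T then 1 else 0) + ∑ i, e i v = 1 := by
      intro v
      have := DFunLike.congr_fun hsum v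
      rw [Finsupp.add_apply, Finsupp.finsetSum_apply, ind_apply, ind_apply] at this
      simpa using this
    have hprop : ∀ i, (e i).support ⊆ freeSet Z ∪ Z i ∧ Conn G ((e i).support : Set (Fin n)) := by
      intro i
      have := he i (Finset.mem_univ _)
      rw [coeff_sum_ne] at this
      obtain ⟨v, _, hv⟩ := this
      obtain ⟨_, h2, h3⟩ := treeP_sound G _ _ _ _ hv
      exact ⟨h2, h3⟩
    refine ⟨fun i => (e i).support, fun i => ⟨?_, (hprop i).2⟩, ?_⟩
    · intro z hz
      have hzT : z ∉ T := fun h => (mem_freeSet Z).1 (hT h) i hz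
      have h2 := hpt z
      rw [if_neg hzT, zero_add] at h2
      have h3 : ∑ j, e j z = e i z := by
        refine Finset.sum_eq_single_of_mem i (Finset.mem_univ _) ?_
        intro j _ hji
        by_contra h4
        have h5 := (hprop j).1 (Finsupp.mem_support_iff.2 h4)
        rcases Finset.mem_union.1 h5 with h5 | h5
        · exact (mem_freeSet Z).1 h5 i hz
        · exact Finset.disjoint_left.1 (hZd hji) h5 hz
      rw [Finsupp.mem_support_iff]
      omega
    · intro i j hij
      rw [Finset.disjoint_left]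
      intro v hvi hvj
      rw [Finsupp.mem_support_iff] at hvi hvj
      have h2 := hpt v
      have h3 : ∑ l ∈ ({i, j} : Finset (Fin k)), e l v ≤ ∑ l, e l v :=
        Finset.sum_le_sum_of_subset (Finset.subset_univ _)
      rw [Finset.sum_pair hij] at h3
      omega
  · rintro ⟨S, hS, hSd⟩
    have hsub : ∀ i, S i ⊆ freeSet Z ∪ Z i := by
      intro i v hv
      rw [Finset.mem_union]
      by_cases h : v ∈ Z i
      · exact Or.inr h
      · left
        rw [mem_freeSet]
        intro j hj
        by_cases hij : i = j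
        · subst hij; exact h hj
        · exact Finset.disjoint_left.1 (hSd hij) hv ((hS j).1 hj)
    refine ⟨ind (univ \ univ.biUnion S), ∑ i, ind (S i), ?_, ?_, ?_⟩
    · ext v
      rw [Finsupp.add_apply, Finsupp.finsetSum_apply, ind_apply, ind_apply,
        if_pos (Finset.mem_univ v)]
      by_cases h : ∃ i, v ∈ S i
      · obtain ⟨i, hi⟩ := h
        have h1 : v ∉ univ \ univ.biUnion S := by
          simp only [Finset.mem_sdiff, Finset.mem_univ, true_and, Finset.mem_biUnion, not_not]
          exact ⟨i, hi⟩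
        rw [if_neg h1, zero_add, Finset.sum_eq_single_of_mem i (Finset.mem_univ _)]
        · simp [hi]
        · intro j _ hji
          have : v ∉ S j := fun hj => Finset.disjoint_left.1 (hSd hji) hj hi
          simp [this]
      · push Not at h
        have h1 : v ∈ univ \ univ.biUnion S := by
          simp only [Finset.mem_sdiff, Finset.mem_univ, true_and, Finset.mem_biUnion]
          rintro ⟨i, hi⟩
          exact h i hi
        rw [if_pos h1, Finset.sum_eq_zero (fun j _ => by simp [h j]), add_zero]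
    · rw [coeff_free_ne]
      refine ⟨_, ?_, rfl⟩
      intro v hv
      rw [mem_freeSet]
      intro i hi
      simp only [Finset.mem_sdiff, Finset.mem_univ, true_and, Finset.mem_biUnion] at hv
      exact hv ⟨i, (hS i).1 hi⟩
    · rw [coeff_prod_ne]
      refine ⟨fun i => ind (S i), fun i _ => ?_, rfl⟩
      rw [coeff_sum_ne]
      obtain ⟨v, hv⟩ := hZ i
      refine ⟨v, hv, treeP_complete G _ _ _ _ ((hS i).1 hv) (hsub i) (hS i).2 ?_⟩
      exact (Finset.card_le_univ _).trans (by simp)

/-! ### Evaluations -/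

theorem eval₂_treeP_succ {R : Type*} [CommSemiring R] (A : Finset (Fin n)) (x : Fin n → R)
    (j : ℕ) (v : Fin n) :
    eval₂ (Nat.castRingHom R) x (treeP G A (j + 1) v) = (if v ∈ A then x v else 0) +
      eval₂ (Nat.castRingHom R) x (treeP G A j v) *
      ∑ u, if G.Adj v u then eval₂ (Nat.castRingHom R) x (treeP G A j u) else 0 := by
  rw [treeP, eval₂_add, eval₂_mul, eval₂_sum]
  congr 1
  · by_cases h : v ∈ A <;> simp [h]
  · congr 1
    refine Finset.sum_congr rfl (fun u _ => ?_)
    by_cases h : G.Adj v u <;> simp [h]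

theorem eval₂_bigF {R : Type*} [CommSemiring R] (x : Fin n → R) :
    eval₂ (Nat.castRingHom R) x (bigF G Z) = (∏ v ∈ freeSet Z, (1 + x v)) *
      ∏ i, ∑ v ∈ Z i, eval₂ (Nat.castRingHom R) x (treeP G (freeSet Z ∪ Z i) n v) := by
  unfold bigF
  rw [eval₂_mul, eval₂_prod, eval₂_prod]
  congr 1
  · refine Finset.prod_congr rfl (fun v _ => ?_)
    simp
  · refine Finset.prod_congr rfl (fun v _ => ?_)
    rw [eval₂_sum]

theorem treeP_eval_le (A : Finset (Fin n)) (ε : ℚ) (h0 : 0 ≤ ε) (h1 : 4 * n * ε ≤ 1)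
    (j : ℕ) : ∀ v, 0 ≤ eval₂ (Nat.castRingHom ℚ) (fun _ => ε) (treeP G A j v) ∧
      eval₂ (Nat.castRingHom ℚ) (fun _ => ε) (treeP G A j v) ≤ 2 * ε := by
  induction j with
  | zero => intro v; simp [treeP]; exact h0
  | succ j ih =>
    intro v
    rw [eval₂_treeP_succ]
    have hs0 : 0 ≤ ∑ u, if G.Adj v u then
        eval₂ (Nat.castRingHom ℚ) (fun _ => ε) (treeP G A j u) else 0 := by
      refine Finset.sum_nonneg (fun u _ => ?_)
      by_cases h : G.Adj v u
      · simpa [h] using (ih u).1
      · simp [h]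
    have hs1 : (∑ u, if G.Adj v u then
        eval₂ (Nat.castRingHom ℚ) (fun _ => ε) (treeP G A j u) else 0) ≤ n * (2 * ε) := by
      have : (n : ℚ) * (2 * ε) = ∑ _u : Fin n, 2 * ε := by simp
      rw [this]
      refine Finset.sum_le_sum (fun u _ => ?_)
      by_cases h : G.Adj v u
      · simpa [h] using (ih u).2
      · simp [h]; exact h0
    have hx0 : 0 ≤ (if v ∈ A then ε else 0) := by split_ifs <;> simp [h0]
    have hx1 : (if v ∈ A then ε else 0) ≤ ε := by split_ifs <;> simp [h0]
    refine ⟨add_nonneg hx0 (mul_nonneg (ih v).1 hs0), ?_⟩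
    have h2 : eval₂ (Nat.castRingHom ℚ) (fun _ => ε) (treeP G A j v) * (∑ u, if G.Adj v u then
        eval₂ (Nat.castRingHom ℚ) (fun _ => ε) (treeP G A j u) else 0) ≤
        (2 * ε) * (n * (2 * ε)) :=
      mul_le_mul (ih v).2 hs1 hs0 (by positivity)
    have h3 : (2 * ε) * (n * (2 * ε)) = (4 * n * ε) * ε := by ring
    have h4 : (4 * n * ε) * ε ≤ 1 * ε := mul_le_mul_of_nonneg_right h1 h0
    linarith

theorem coeff_le_eval (F : MvPolynomial (Fin n) ℕ) (ε : ℚ) (h0 : 0 ≤ ε) (d : Fin n →₀ ℕ) :
    ((coeff d F : ℕ) : ℚ) * ∏ v, ε ^ d v ≤ eval₂ (Nat.castRingHom ℚ) (fun _ => ε) F := by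
  rw [eval₂_eq']
  by_cases h : d ∈ F.support
  · refine Finset.single_le_sum (f := fun d => (Nat.castRingHom ℚ) (coeff d F) *
      ∏ v, ε ^ d v) (fun d _ => ?_) h
    simp only [eq_natCast]
    positivity
  · rw [notMem_support_iff.1 h]
    simp only [Nat.cast_zero, zero_mul]
    refine Finset.sum_nonneg (fun d _ => ?_)
    simp only [eq_natCast]
    positivity

theorem bigF_eval_le (ε : ℚ) (h0 : 0 ≤ ε) (h1 : 4 * n * ε ≤ 1) (h2 : ε ≤ 1) :
    eval₂ (Nat.castRingHom ℚ) (fun _ => ε) (bigF G Z) ≤ 2 ^ n := by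
  rw [eval₂_bigF]
  have ha : ∏ v ∈ freeSet Z, (1 + ε) ≤ 2 ^ n := by
    rw [Finset.prod_const]
    calc (1 + ε) ^ (freeSet Z).card ≤ 2 ^ (freeSet Z).card := by
          gcongr; linarith
      _ ≤ 2 ^ n := by
          refine pow_le_pow_right₀ (by norm_num) ?_
          exact (Finset.card_le_univ _).trans (by simp)
  have hb : ∏ i, ∑ v ∈ Z i, eval₂ (Nat.castRingHom ℚ) (fun _ => ε)
      (treeP G (freeSet Z ∪ Z i) n v) ≤ 1 := by
    refine Finset.prod_le_one (fun i _ => Finset.sum_nonneg (fun v _ =>
      (treeP_eval_le G _ ε h0 h1 n v).1)) (fun i _ => ?_)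
    calc ∑ v ∈ Z i, eval₂ (Nat.castRingHom ℚ) (fun _ => ε)
          (treeP G (freeSet Z ∪ Z i) n v) ≤ ∑ v ∈ Z i, 2 * ε :=
          Finset.sum_le_sum (fun v _ => (treeP_eval_le G _ ε h0 h1 n v).2)
      _ = (Z i).card * (2 * ε) := by simp
      _ ≤ n * (2 * ε) := by
          have : ((Z i).card : ℚ) ≤ n := by
            exact_mod_cast (Finset.card_le_univ _).trans (by simp)
          gcongr
      _ ≤ 1 := by nlinarith
  have hb0 : 0 ≤ ∏ i, ∑ v ∈ Z i, eval₂ (Nat.castRingHom ℚ) (fun _ => ε)
      (treeP G (freeSet Z ∪ Z i) n v) :=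
    Finset.prod_nonneg (fun i _ => Finset.sum_nonneg (fun v _ =>
      (treeP_eval_le G _ ε h0 h1 n v).1))
  calc _ ≤ (2 : ℚ) ^ n * 1 := mul_le_mul ha hb hb0 (by positivity)
    _ = 2 ^ n := mul_one _

/-- Bound for the multilinear coefficient. -/
theorem bigF_coeff_lt : coeff (ind univ) (bigF G Z) < 2 ^ (n * n + 3 * n + 1) := by
  rcases Nat.eq_zero_or_pos n with hn | hn
  · subst hn
    have h1 := coeff_le_eval (bigF G Z) 1 (by norm_num) (ind univ)
    have h2 := bigF_eval_le G Z 1 (by norm_num) (by norm_num) le_rfl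
    have h3 : ((coeff (ind univ) (bigF G Z) : ℕ) : ℚ) ≤ 1 := by
      have := h1.trans h2
      simpa using this
    have h4 : coeff (ind univ) (bigF G Z) ≤ 1 := by exact_mod_cast h3
    calc _ ≤ 1 := h4
      _ < _ := by norm_num
  · have hn' : (0 : ℚ) < n := by exact_mod_cast hn
    have hn1 : (1 : ℚ) ≤ n := by exact_mod_cast hn
    have h1 := coeff_le_eval (bigF G Z) (1 / (4 * n)) (by positivity) (ind univ)
    have h2 := bigF_eval_le G Z (1 / (4 * n)) (by positivity)
      (by rw [mul_one_div, div_self (by positivity)])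
      (by rw [div_le_one (by positivity)]; linarith)
    have h3 := h1.trans h2
    have h4 : ∏ v : Fin n, ((1 : ℚ) / (4 * n)) ^ (ind (univ : Finset (Fin n))) v =
        (1 / (4 * n)) ^ n := by simp
    rw [h4] at h3
    have h5 : ((coeff (ind univ) (bigF G Z) : ℕ) : ℚ) ≤ (8 * n) ^ n := by
      have h6 : ((coeff (ind univ) (bigF G Z) : ℕ) : ℚ) =
          ((coeff (ind univ) (bigF G Z) : ℕ) : ℚ) * (1 / (4 * n)) ^ n * (4 * n) ^ n := by
        rw [mul_assoc, ← mul_pow, one_div_mul_cancel (by positivity)]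
        simp
      rw [h6]
      calc _ ≤ (2 : ℚ) ^ n * (4 * n) ^ n := by gcongr
        _ = (8 * n) ^ n := by rw [← mul_pow]; congr 1; ring
    have h7 : coeff (ind univ) (bigF G Z) ≤ (8 * n) ^ n := by exact_mod_cast h5
    calc _ ≤ (8 * n) ^ n := h7
      _ ≤ (2 ^ 3 * 2 ^ n) ^ n := by
          have : n < 2 ^ n := Nat.lt_two_pow_self
          gcongr
          norm_num
      _ = 2 ^ (n * n + 3 * n) := by
          rw [← pow_add, ← pow_mul]; congr 1; ring
      _ < 2 ^ (n * n + 3 * n + 1) := by
          apply Nat.pow_lt_pow_right (by norm_num)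
          omega

end inst

end Pool.Agent.DCS
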