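import Pool.Agent.Lib.MP_14a7d6_lc.Algo
import Pool.Agent.Lib.MP_14a7d6_lc.Poly2

/-!
# Correctness of the list algorithm
-/

namespace Pool.Agent.TMLib

open Function MvPolynomial Pool.Agent.DCS

section lists

variable {α β : Type}

theorem zip_ofFn {n : ℕ} (f : Fin n → α) (g : Fin n → β) :
    (List.ofFn f).zip (List.ofFn g) = List.ofFn (fun i => (f i, g i)) := by
  apply List.ext_getElem
  · simp
  · intro i h1 h2
    simp

theorem zip_ofFn' {n : ℕ} (l : List α) (d : α) (hl : n ≤ l.length) (g : Fin n → β) :
    l.zip (List.ofFn g) = List.ofFn (fun i : Fin n => (l.getD i d, g i)) := by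
  apply List.ext_getElem
  · simp [hl]
  · intro i h1 h2
    simp only [List.length_ofFn] at h2
    have : i < l.length := by omega
    simp [List.getD_eq_getElem?_getD, List.getElem?_eq_getElem this]

theorem ofFn_getD {n : ℕ} (l : List α) (d : α) (hl : n ≤ l.length) :
    List.ofFn (fun i : Fin n => l.getD i d) = l.take n := by
  apply List.ext_getElem
  · simp [hl]
  · intro i h1 h2
    simp only [List.length_ofFn] at h1
    have : i < l.length := by omega
    simp [List.getD_eq_getElem?_getD, List.getElem?_eq_getElem this]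

end lists

theorem ev_foldl_add {Q : ℕ} (l : List (Bool × List Bool)) : ∀ acc : List Bool,
    acc.length = Q →
    ev Q (l.foldl (fun acc p => if p.1 = true then addc false acc p.2 else acc) acc) =
      ev Q acc + (l.map (fun p => if p.1 = true then ev Q p.2 else 0)).sum := by
  induction l with
  | nil => intro acc _; simp
  | cons p l ih =>
    intro acc hacc
    rw [List.foldl_cons, List.map_cons, List.sum_cons]
    by_cases h : p.1 = true
    · rw [if_pos h, if_pos h, ih _ (by simp [hacc]), ev_addc _ _ hacc, add_assoc]
    · rw [if_neg h, if_neg h, ih _ hacc, zero_add]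

theorem ev_sumRow {Q n : ℕ} (zero : List Bool) (hz : zero.length = Q) (r : Fin n → Bool)
    (b : Fin n → List Bool) :
    ev Q (sumRow zero (List.ofFn r) (List.ofFn b)) =
      ev Q zero + ∑ v, if r v = true then ev Q (b v) else 0 := by
  unfold sumRow
  rw [zip_ofFn, ev_foldl_add _ _ hz, List.map_ofFn, List.sum_ofFn]
  rfl

theorem ev_foldl_mul {Q : ℕ} {ι : Type} (f : ι → List Bool) (l : List ι) :
    ∀ acc : List Bool, acc.length = Q →
    ev Q (l.foldl (fun acc p => mulb acc (f p)) acc) =
      ev Q acc * (l.map (fun p => ev Q (f p))).prod := by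
  induction l with
  | nil => intro acc _; simp
  | cons p l ih =>
    intro acc hacc
    rw [List.foldl_cons, List.map_cons, List.prod_cons, ih _ (by simp [hacc]),
      ev_mulb _ _ hacc, mul_assoc]

/-! ### Constants -/

theorem length_cZero (n : ℕ) : (cZero n).length = bigQ n := by simp [cZero]
theorem length_cOne (n : ℕ) : (cOne n).length = bigQ n := by simp [cOne, cZero]
theorem length_cT (n : ℕ) : (cT n).length = bigQ n := by
  unfold cT
  rw [List.length_take, List.length_append, length_cOne]
  simp
theorem length_cMinusOne (n : ℕ) : (cMinusOne n).length = bigQ n := by simp [cMinusOne]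

theorem ev_take {Q : ℕ} (l : List Bool) : ev Q (l.take Q) = ev Q l := by
  unfold ev
  rw [val_take, natCast_mod_pow]

theorem ev_cZero (n : ℕ) : ev (bigQ n) (cZero n) = 0 := by
  unfold ev cZero
  rw [val_replicate_false]; simp

theorem ev_cOne (n : ℕ) : ev (bigQ n) (cOne n) = 1 := by
  unfold cOne
  rw [ev_take]
  unfold ev cZero
  rw [val_cons, val_replicate_false]; simp

theorem ev_cT (n : ℕ) : ev (bigQ n) (cT n) = 2 ^ bigM n := by
  unfold cT
  rw [ev_take]
  have h := ev_cOne n
  unfold ev at h ⊢
  rw [val_append, val_replicate_false, List.length_replicate, zero_add, Nat.cast_mul, h]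
  simp

theorem ev_cMinusOne (n : ℕ) : ev (bigQ n) (cMinusOne n) = -1 := by
  unfold ev cMinusOne
  have h := val_replicate_true (bigQ n)
  have h2 : ((val (List.replicate (bigQ n) true) + 1 : ℕ) : ZMod (2 ^ bigQ n)) = 0 := by
    rw [h]; exact ZMod.natCast_self _
  rw [Nat.cast_add, Nat.cast_one] at h2
  exact eq_neg_of_add_eq_zero_left h2

/-! ### The tree recursion -/

section inst

variable {n k : ℕ} (G : SimpleGraph (Fin n)) [DecidableRel G.Adj] (Z : Fin k → Finset (Fin n))

/-- Adjacency matrix as a list of lists. -/
def adjL : List (List Bool) :=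
  List.ofFn (fun i : Fin n => List.ofFn (fun j : Fin n => decide (G.Adj i j)))

/-- Membership matrix as a list of lists. -/
def membL : List (List Bool) :=
  List.ofFn (fun i : Fin k => List.ofFn (fun v : Fin n => decide (v ∈ Z i)))

/-- The environment of an instance. -/
def envL : Env := mkEnv n (adjL G) (membL Z)

theorem envL_n : (envL G Z).n = n := rfl
theorem envL_zero : (envL G Z).zero = cZero n := rfl
theorem envL_one : (envL G Z).one = cOne n := rfl
theorem envL_t : (envL G Z).t = cT n := rfl
theorem envL_onePlus : (envL G Z).onePlus = addc false (cOne n) (cT n) := rfl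
theorem envL_minusOne : (envL G Z).minusOne = cMinusOne n := rfl
theorem envL_adj : (envL G Z).adj = adjL G := rfl
theorem envL_memb : (envL G Z).memb = membL Z := rfl

theorem envL_free : (envL G Z).free = List.ofFn (fun v : Fin n => decide (v ∈ freeSet Z)) := by
  have : (envL G Z).free =
      (List.range n).map (fun v => !((membL Z).any (fun mi => mi.getD v false))) := rfl
  rw [this]
  apply List.ext_getElem
  · simp
  · intro v h1 h2
    simp only [List.length_ofFn] at h2
    simp only [List.getElem_map, List.getElem_range, List.getElem_ofFn]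
    rw [Bool.eq_iff_iff]
    simp only [Bool.not_eq_true', decide_eq_true_eq, mem_freeSet]
    rw [List.any_eq_false]
    simp only [membL, List.mem_ofFn]
    constructor
    · intro h i hi
      apply h _ ⟨i, rfl⟩
      simp [List.getD_eq_getElem?_getD, h2, hi]
    · rintro h _ ⟨i, rfl⟩
      have := h i
      simp [List.getD_eq_getElem?_getD, h2, this]

/-- Lists representing the tree polynomials. -/
def treeL (x : Fin n → List Bool) : ℕ → Fin n → List Bool
  | 0, _ => cZero n
  | j + 1, v => addc false (x v) (mulb (treeL x j v)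
      (sumRow (cZero n) (List.ofFn (fun u : Fin n => decide (G.Adj v u)))
        (List.ofFn (treeL x j))))

theorem treeStep_iterate (x : Fin n → List Bool) (j : ℕ) :
    (treeStep (cZero n) (adjL G) (List.ofFn x))^[j] ((List.ofFn x).map (fun _ => cZero n)) =
      List.ofFn (treeL G x j) := by
  induction j with
  | zero =>
    rw [Function.iterate_zero_apply, List.map_ofFn]
    rfl
  | succ j ih =>
    rw [Function.iterate_succ_apply', ih]
    unfold treeStep adjL
    rw [zip_ofFn, zip_ofFn, List.map_ofFn]
    rfl

theorem treeL_spec (A : Finset (Fin n)) (x : Fin n → List Bool) (y : Fin n → ZMod (2 ^ bigQ n))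
    (hx : ∀ v, (x v).length = bigQ n)
    (hy : ∀ v, ev (bigQ n) (x v) = if v ∈ A then y v else 0) (j : ℕ) :
    ∀ v, (treeL G x j v).length = bigQ n ∧ ev (bigQ n) (treeL G x j v) =
      eval₂ (Nat.castRingHom (ZMod (2 ^ bigQ n))) y (treeP G A j v) := by
  induction j with
  | zero =>
    intro v
    refine ⟨length_cZero n, ?_⟩
    rw [treeP]
    simp only [treeL, ev_cZero]
    simp
  | succ j ih =>
    intro v
    refine ⟨by simp [treeL, hx], ?_⟩
    rw [eval₂_treeP_succ, treeL, ev_addc _ _ (hx v), ev_mulb _ _ (ih v).1,
      ev_sumRow _ (length_cZero n), ev_cZero, zero_add, hy]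
    congr 1
    rw [(ih v).2]
    congr 1
    refine Finset.sum_congr rfl (fun u _ => ?_)
    simp only [decide_eq_true_eq]
    by_cases h : G.Adj v u
    · rw [if_pos h, if_pos h, (ih u).2]
    · rw [if_neg h, if_neg h]

/-- The point at which polynomials are evaluated. -/
def point (n : ℕ) (f : Fin n → Bool) : Fin n → ZMod (2 ^ bigQ n) :=
  fun v => if f v = true then 2 ^ bigM n else 0

theorem ev_rootVal (X : List Bool) (hX : n ≤ X.length) (i : Fin k) :
    ev (bigQ n) (rootVal (envL G Z) X (List.ofFn (fun v : Fin n => decide (v ∈ Z i)))) =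
      ∑ v ∈ Z i, eval₂ (Nat.castRingHom (ZMod (2 ^ bigQ n)))
        (point n (fun v => X.getD v false)) (treeP G (freeSet Z ∪ Z i) n v) := by
  unfold rootVal
  rw [envL_free, envL_zero, envL_n, envL_adj, envL_t, zip_ofFn, zip_ofFn' X false hX,
    List.map_ofFn]
  unfold treeVec
  rw [treeStep_iterate, ev_sumRow _ (length_cZero n), ev_cZero, zero_add]
  have h := fun v => (treeL_spec G (freeSet Z ∪ Z i) (fun v : Fin n =>
      if (X.getD v false && (decide (v ∈ freeSet Z) || decide (v ∈ Z i))) = true then cT n
      else cZero n) (point n (fun v => X.getD v false))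
      (fun v => by
        split_ifs
        · exact length_cT n
        · exact length_cZero n)
      (fun v => by
        unfold point
        by_cases h1 : X.getD v false = true
        · by_cases h2 : v ∈ freeSet Z ∪ Z i
          · have h3 : (X.getD v false && (decide (v ∈ freeSet Z) || decide (v ∈ Z i))) = true := by
              rw [h1, Bool.true_and, Bool.or_eq_true]
              simpa using h2
            rw [if_pos h3, if_pos h2, if_pos h1, ev_cT]
          · have h3 : ¬ (X.getD v false && (decide (v ∈ freeSet Z) || decide (v ∈ Z i))) =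
                true := by
              rw [h1, Bool.true_and, Bool.or_eq_true]
              simpa using h2
            rw [if_neg h3, if_neg h2, ev_cZero]
        · have h3 : ¬ (X.getD v false && (decide (v ∈ freeSet Z) || decide (v ∈ Z i))) =
              true := by
            intro h4
            rw [Bool.and_eq_true] at h4
            exact h1 h4.1
          rw [if_neg h3, if_neg h1, ev_cZero]
          simp) n v).2
  rw [← Finset.sum_filter]
  have hf : Finset.univ.filter (fun v : Fin n => decide (v ∈ Z i) = true) = Z i := by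
    ext v; simp
  rw [hf]
  refine Finset.sum_congr rfl (fun v _ => ?_)
  rw [← h v]
  rfl

theorem ev_baseTerm (X : List Bool) (hX : n ≤ X.length) :
    ev (bigQ n) (baseTerm (envL G Z) X) =
      (∏ v : Fin n, if X.getD v false = true then (1 : ZMod (2 ^ bigQ n)) else -1) *
      ∏ v ∈ freeSet Z, (1 + point n (fun v => X.getD v false) v) := by
  unfold baseTerm
  rw [envL_free, envL_one, envL_onePlus, envL_minusOne, zip_ofFn' X false hX,
    ev_foldl_mul (fun p : Bool × Bool => if p.1 = true then
      (if p.2 = true then addc false (cOne n) (cT n) else cOne n) else cMinusOne n) _ _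
      (length_cOne n), ev_cOne, one_mul, List.map_ofFn, List.prod_ofFn]
  have h1 : ∏ v ∈ freeSet Z, (1 + point n (fun v => X.getD v false) v) =
      ∏ v, if v ∈ freeSet Z then (1 + point n (fun v => X.getD v false) v) else 1 := by
    rw [Finset.prod_ite_mem, Finset.univ_inter]
  rw [h1, ← Finset.prod_mul_distrib]
  refine Finset.prod_congr rfl (fun v _ => ?_)
  simp only [Function.comp, decide_eq_true_eq]
  unfold point
  by_cases h1 : X.getD v false = true
  · by_cases h2 : v ∈ freeSet Z
    · simp only [h1, h2, if_true]
      rw [ev_addc _ _ (length_cOne n), ev_cOne, ev_cT, one_mul]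
    · simp only [h1, h2, if_true, if_false]
      rw [ev_cOne, one_mul]
  · rw [if_neg h1, if_neg h1, if_neg h1, ev_cMinusOne]
    simp

theorem ev_termOf (X : List Bool) (hX : n ≤ X.length) :
    ev (bigQ n) (termOf (envL G Z) X) =
      (∏ v : Fin n, if X.getD v false = true then (1 : ZMod (2 ^ bigQ n)) else -1) *
      eval₂ (Nat.castRingHom (ZMod (2 ^ bigQ n))) (point n (fun v => X.getD v false))
        (bigF G Z) := by
  unfold termOf
  have hb : (baseTerm (envL G Z) X).length = bigQ n := by
    unfold baseTerm
    rw [length_foldl_mulb (fun p : Bool × Bool => if p.1 = true then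
      (if p.2 = true then (envL G Z).onePlus else (envL G Z).one) else (envL G Z).minusOne),
      envL_one, length_cOne]
  rw [ev_foldl_mul _ _ _ hb, ev_baseTerm G Z X hX, eval₂_bigF, mul_assoc, envL_memb]
  congr 2
  unfold membL
  rw [List.map_ofFn, List.prod_ofFn]
  refine Finset.prod_congr rfl (fun i _ => ?_)
  exact ev_rootVal G Z X hX i

/-! ### The main loop -/

/-- The accumulator after `i` rounds. -/
def accL : ℕ → List Bool
  | 0 => cZero n
  | i + 1 => addc false (accL i) (termOf (envL G Z) (natBits (n + 1) i))

theorem length_accL (i : ℕ) : (accL G Z i).length = bigQ n := by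
  induction i with
  | zero => exact length_cZero n
  | succ i ih => simp [accL, ih]

theorem ev_accL (i : ℕ) : ev (bigQ n) (accL G Z i) =
    ∑ j ∈ Finset.range i, ev (bigQ n) (termOf (envL G Z) (natBits (n + 1) j)) := by
  induction i with
  | zero => simp [accL, ev_cZero]
  | succ i ih =>
    rw [accL, ev_addc _ _ (length_accL G Z i), ih, Finset.sum_range_succ]

theorem loopStep_iterate (i : ℕ) :
    loopStep^[i] (envL G Z, List.replicate (n + 1) false, cZero n) =
      (envL G Z, natBits (n + 1) i, accL G Z i) := by
  induction i with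
  | zero => rw [Function.iterate_zero_apply, natBits_zero]; rfl
  | succ i ih =>
    rw [Function.iterate_succ_apply', ih]
    unfold loopStep
    rw [addc_natBits]
    rfl

theorem natBits_succ_eq (n i : ℕ) :
    natBits (n + 1) i = natBits n i ++ [decide (i / 2 ^ n % 2 = 1)] := by
  apply eq_of_val_eq
  · simp
  · rw [val_append, val_natBits, val_natBits, length_natBits]
    have h1 : val [decide (i / 2 ^ n % 2 = 1)] = i / 2 ^ n % 2 := by
      rcases Nat.mod_two_eq_zero_or_one (i / 2 ^ n) with h | h <;> simp [h]
    rw [h1, pow_succ, Nat.mod_mul]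

theorem loopTest_eq (n i : ℕ) (e : Env) (acc : List Bool) :
    loopTest (e, natBits (n + 1) i, acc) = !(decide (i / 2 ^ n % 2 = 1)) := by
  unfold loopTest
  rw [natBits_succ_eq]
  simp

theorem natBits_take (n i : ℕ) : (natBits (n + 1) i).take n = natBits n i := by
  rw [natBits_succ_eq]
  rw [List.take_append_of_le_length (by simp)]
  exact List.take_of_length_le (by simp)

theorem sum_natBits {R : Type*} [AddCommMonoid R] (n : ℕ) (T : (Fin n → Bool) → R) :
    ∑ j ∈ Finset.range (2 ^ n), T (fun v => (natBits (n + 1) j).getD v false) =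
      ∑ f : Fin n → Bool, T f := by
  have h1 : ∀ j, List.ofFn (fun v : Fin n => (natBits (n + 1) j).getD v false) =
      natBits n j := by
    intro j
    rw [ofFn_getD _ _ (by simp), natBits_take]
  refine Finset.sum_nbij' (fun j => fun v => (natBits (n + 1) j).getD v false)
    (fun f => val (List.ofFn f)) ?_ ?_ ?_ ?_ ?_
  · intro j _; exact Finset.mem_univ _
  · intro f _
    rw [Finset.mem_range]
    have := val_lt (List.ofFn f)
    simpa using this
  · intro j hj
    rw [Finset.mem_range] at hj
    rw [h1, val_natBits, Nat.mod_eq_of_lt hj]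
  · intro f _
    have h2 := h1 (val (List.ofFn f))
    have h3 : natBits n (val (List.ofFn f)) = List.ofFn f := by
      have := natBits_val (List.ofFn f)
      rwa [List.length_ofFn] at this
    rw [h3] at h2
    exact List.ofFn_injective h2
  · intro j _; rfl

/-- The final value of the accumulator. -/
theorem ev_accL_final : ev (bigQ n) (accL G Z (2 ^ n)) =
    ((coeff (ind Finset.univ) (bigF G Z) : ℕ) : ZMod (2 ^ bigQ n)) * (2 ^ bigM n) ^ n := by
  have ht : ((2 : ZMod (2 ^ bigQ n)) ^ bigM n) ^ (n + 1) = 0 := by
    have h0 : ((2 ^ bigQ n : ℕ) : ZMod (2 ^ bigQ n)) = 0 := ZMod.natCast_self _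
    have h1 : ((2 ^ bigQ n : ℕ) : ZMod (2 ^ bigQ n)) = (2 ^ bigM n) ^ (n + 1) := by
      rw [← pow_mul]
      change ((2 ^ (bigM n * (n + 1)) : ℕ) : ZMod (2 ^ bigQ n)) = _
      rw [Nat.cast_pow]
      rfl
    rw [← h1, h0]
  rw [ev_accL, ← incl_excl _ ht, ← sum_natBits n (fun f =>
    (∏ v, if f v = true then (1 : ZMod (2 ^ bigQ n)) else -1) *
      eval₂ (Nat.castRingHom (ZMod (2 ^ bigQ n))) (fun v => if f v = true then 2 ^ bigM n else 0)
        (bigF G Z))]
  refine Finset.sum_congr rfl (fun j _ => ?_)
  rw [ev_termOf G Z _ (by simp)]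
  rfl

theorem accL_final_any : (accL G Z (2 ^ n)).any (fun b => b) = true ↔
    coeff (ind Finset.univ) (bigF G Z) ≠ 0 := by
  have h1 := ev_eq_zero_iff (accL G Z (2 ^ n)) (length_accL G Z _)
  rw [ev_accL_final] at h1
  have h2 := bigF_coeff_lt G Z
  have h3 : (((coeff (ind Finset.univ) (bigF G Z) : ℕ) : ZMod (2 ^ bigQ n)) *
      (2 ^ bigM n) ^ n = 0) ↔ coeff (ind Finset.univ) (bigF G Z) = 0 := by
    constructor
    · intro h
      have h4 : ((coeff (ind Finset.univ) (bigF G Z) * (2 ^ bigM n) ^ n : ℕ) :
          ZMod (2 ^ bigQ n)) = 0 := by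
        push_cast; exact h
      rw [ZMod.natCast_eq_zero_iff] at h4
      have h5 : 2 ^ bigQ n = 2 ^ bigM n * (2 ^ bigM n) ^ n := by
        rw [← pow_succ', ← pow_mul]; rfl
      rw [h5] at h4
      have h6 : 2 ^ bigM n ∣ coeff (ind Finset.univ) (bigF G Z) :=
        Nat.dvd_of_mul_dvd_mul_right (by positivity) h4
      exact Nat.eq_zero_of_dvd_of_lt h6 h2
    · intro h; rw [h]; simp
  rw [h3] at h1
  constructor
  · intro h h'
    rw [h1.1 h'] at h
    exact absurd h (by simp)
  · intro h
    by_contra h'
    exact h (h1.2 (by simpa using h'))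

end inst

end Pool.Agent.TMLib
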