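import Pool.Agent.Lib.MP_14a7d6_lc.Correct

/-!
# The machine for Disjoint Connected Subgraphs
-/

namespace Pool.Agent.TMLib

open Function MvPolynomial Pool.Agent.DCS Turing

/-- A variant of `TimeB.machine` for arbitrary types encoded by words. -/
theorem TimeB.machine' {α : Type} [TrEnc α] {f : α → List Bool} {T : α → ℕ} (h : TimeB f T)
    (w : α → List Bool) (hw : ∀ a, enc a = enc (w a)) :
    ∃ p : SProg, ∀ a, ∀ u : List Bool, u = w a → Nonempty (TM2OutputsInTime (toTM p) u (some (f a))
      (T a + 12 * (w a).length + 12 * (f a).length + 7)) := by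
  obtain ⟨p, hp⟩ := h
  refine ⟨pFull p, fun a u hu => ?_⟩
  subst hu
  obtain ⟨t1, ht1, h1⟩ := pIn_exec (w a)
  obtain ⟨t2, ht2, h2⟩ := hp a []
  obtain ⟨t3, ht3, h3⟩ := pOut_exec (f a)
  rw [hw] at h2
  have hE : Exec (pFull p) (update (fun _ => []) Reg.a (w a)) (update (fun _ => []) Reg.b (f a))
      (t1 + (t2 + t3)) := by
    have e1 : (update (fun _ => []) Reg.a (w a) : St) = mk [] (w a) [] [] := by
      funext k; cases k <;> rfl
    have e2 : (update (fun _ => []) Reg.b (f a) : St) = mk [] [] (f a) [] := by
      funext k; cases k <;> rfl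
    rw [e1, e2]
    exact h1.seq (h2.seq h3)
  have hle : t1 + (t2 + t3) + 1 ≤ T a + 12 * (w a).length + 12 * (f a).length + 7 := by omega
  obtain ⟨⟨e, he⟩⟩ := hE.outputs
  exact ⟨⟨e, he.trans hle⟩⟩

theorem ones_append (n : ℕ) (r : List Bool) :
    ones (List.replicate n true ++ false :: r) = n := by
  unfold ones
  induction n with
  | zero => simp
  | succ n ih => simp [List.replicate_succ]

theorem afterOnes_append (n : ℕ) (r : List Bool) :
    afterOnes (List.replicate n true ++ false :: r) = r := by
  unfold afterOnes
  induction n with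
  | zero => simp
  | succ n ih => simp [List.replicate_succ]

theorem rows_flatten (len : ℕ) (L : List (List Bool)) (hL : ∀ l ∈ L, l.length = len)
    (rest : List Bool) : rows L.length len (L.flatten ++ rest) = L := by
  have key : ∀ (L : List (List Bool)) (_ : ∀ l ∈ L, l.length = len) (i : ℕ) (hi : i < L.length),
      ((L.flatten ++ rest).drop (i * len)).take len = L[i] := by
    intro L
    induction L with
    | nil => intro _ i hi; simp at hi
    | cons l L ih =>
      intro hL i hi
      have hl : l.length = len := hL l (by simp)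
      cases i with
      | zero =>
        rw [zero_mul, List.drop_zero, List.flatten_cons, List.append_assoc]
        rw [List.take_left' hl]
        rfl
      | succ i =>
        have h1 := ih (fun m hm => hL m (by simp [hm])) i (by simpa using hi)
        have e : (i + 1) * len = l.length + i * len := by rw [hl]; ring
        rw [List.flatten_cons, List.append_assoc, e, List.drop_length_add_append, h1]
        rfl
  unfold rows
  apply List.ext_getElem
  · simp
  · intro i h1 h2
    simp only [List.getElem_map, List.getElem_range]
    exact key L hL i h2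

section inst

variable {n k : ℕ} (G : SimpleGraph (Fin n)) [DecidableRel G.Adj] (Z : Fin k → Finset (Fin n))

/-- The input word of an instance. -/
def wordL : List Bool :=
  List.replicate n true ++ false ::
    (List.replicate k true ++ false :: ((adjL G).flatten ++ (membL Z).flatten))

theorem length_adjL : (adjL G).length = n := by simp [adjL]
theorem length_membL : (membL Z).length = k := by simp [membL]

theorem length_adjL_flatten : (adjL G).flatten.length = n * n := by
  simp only [adjL, List.length_flatten, List.map_ofFn, List.sum_ofFn]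
  simp

theorem length_membL_flatten : (membL Z).flatten.length = k * n := by
  simp only [membL, List.length_flatten, List.map_ofFn, List.sum_ofFn]
  simp

theorem length_wordL : (wordL G Z).length = n + 1 + (k + 1 + (n * n + k * n)) := by
  simp only [wordL, List.length_append, List.length_cons, List.length_replicate,
    length_adjL_flatten, length_membL_flatten]
  ring

theorem envOf_wordL : envOf (wordL G Z) = envL G Z := by
  unfold envOf envL wordL
  simp only [ones_append, afterOnes_append]
  congr 1
  · have h := rows_flatten n (adjL G) (by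
      intro l hl
      obtain ⟨i, rfl⟩ := (List.mem_ofFn' _ _).1 hl
      simp) (membL Z).flatten
    rw [length_adjL] at h
    exact h
  · have h := rows_flatten n (membL Z) (by
      intro l hl
      obtain ⟨i, rfl⟩ := (List.mem_ofFn' _ _).1 hl
      simp) []
    rw [length_membL] at h
    rw [List.drop_left' (length_adjL_flatten G)]
    simpa using h

theorem initState_wordL : initState (wordL G Z) =
    (envL G Z, List.replicate (n + 1) false, cZero n) := by
  unfold initState
  rw [envOf_wordL]
  simp only [wordL, ones_append]

end inst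

/-- Time bound for the decision of the multilinear coefficient. -/
theorem dcs_timeB {α : Type} [TrEnc α] (w : α → List Bool) (henc : ∀ a, enc a = enc (w a))
    (n k : α → ℕ) (G : ∀ a, SimpleGraph (Fin (n a))) [∀ a, DecidableRel (G a).Adj]
    (Z : ∀ a, Fin (k a) → Finset (Fin (n a))) (hw : ∀ a, w a = wordL (G a) (Z a)) :
    ∃ P : Polynomial ℕ, TimeB
      (fun a => [(accL (G a) (Z a) (2 ^ n a)).any (fun b => b)])
      (fun a => 2 ^ n a * P.eval (sz a)) := by
  have hPw : PTime w := PTime.ofEncEq (fun a => (henc a).symm)
  have hinit : PTime (fun a => initState (w a)) := PTime.initState hPw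
  have hn : PTime n := by
    refine (PTime.ones hPw).of_eq (fun a => ?_)
    rw [hw]
    simp only [wordL, ones_append]
  obtain ⟨P, p, hp⟩ := TimeB.loop ptime_loopTest ptime_loopStep
  obtain ⟨T1, hT1, p1, hp1⟩ := hinit
  obtain ⟨p3, P3, hp3⟩ := ptime_finish.exists_poly
  -- the size bound
  have henv : PTime (fun a => envOf (w a)) := PTime.envOf hPw
  have hBp : PB (fun a => sz (envOf (w a)) + ((4 * (n a + 1) + 1) + (4 * bigQ (n a) + 1) + 1) + 1) :=
    (henv.pb_sz.add (((((PB.const 4).mul (PB.nat (PTime.succ hn))).add (PB.const 1)).add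
      (((PB.const 4).mul (PB.nat (PTime.bigQ hn))).add (PB.const 1))).add (PB.const 1))).add
      (PB.const 1)
  obtain ⟨PBd, hPBd⟩ := hBp
  obtain ⟨PT1, hPT1⟩ := hT1
  have hinit' : ∀ a, initState (w a) =
      (envL (G a) (Z a), List.replicate (n a + 1) false, cZero (n a)) := by
    intro a; rw [hw]; exact initState_wordL _ _
  have hsz : ∀ a i, sz (loopStep^[i] (initState (w a))) ≤ PBd.eval (sz a) := by
    intro a i
    refine le_trans ?_ (hPBd a)
    have e0 : ∀ (e : Env) (l l' : List Bool), sz ((e, l, l') : LState) =
        sz e + (sz l + sz l' + 1) + 1 := fun _ _ _ => rfl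
    rw [hinit', loopStep_iterate, e0]
    have h1 := sz_bools_le (natBits (n a + 1) i)
    have h2 := sz_bools_le (accL (G a) (Z a) i)
    rw [length_natBits] at h1
    rw [length_accL] at h2
    have h3 : envOf (w a) = envL (G a) (Z a) := by rw [hw]; exact envOf_wordL _ _
    beta_reduce
    rw [h3]
    omega
  refine ⟨PT1 + 3 * P.comp PBd + P3.comp PBd, .seq p1 (.seq p p3), fun a => ?_⟩
  have hloop := hp (initState (w a)) (2 ^ n a) (PBd.eval (sz a)) (fun i hi => by
      rw [hinit', loopStep_iterate, loopTest_eq, Nat.div_eq_of_lt hi]; rfl)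
      (by rw [hinit', loopStep_iterate, loopTest_eq, Nat.div_self (by positivity)]; rfl)
      (fun i _ => hsz a i)
  have hfin := hp3 (loopStep^[2 ^ n a] (initState (w a)))
  have e1 : finish (loopStep^[2 ^ n a] (initState (w a))) =
      [(accL (G a) (Z a) (2 ^ n a)).any (fun b => b)] := by
    rw [hinit', loopStep_iterate]; rfl
  rw [e1] at hfin
  refine ((hp1 a).comp (hloop.comp hfin)).mono ?_
  simp only [Polynomial.eval_add, Polynomial.eval_mul, Polynomial.eval_ofNat,
    Polynomial.eval_comp]
  have h2 : 1 ≤ 2 ^ n a := Nat.one_le_two_pow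
  have h3 : P3.eval (sz (loopStep^[2 ^ n a] (initState (w a)))) ≤ P3.eval (PBd.eval (sz a)) :=
    polyEval_mono _ (hsz a _)
  have h4 := hPT1 a
  calc T1 a + ((2 ^ n a + 2) * P.eval (PBd.eval (sz a)) +
        P3.eval (sz (loopStep^[2 ^ n a] (initState (w a)))))
      ≤ 1 * PT1.eval (sz a) + ((2 ^ n a + 2) * P.eval (PBd.eval (sz a)) +
        1 * P3.eval (PBd.eval (sz a))) := by omega
    _ ≤ 2 ^ n a * PT1.eval (sz a) + ((2 ^ n a * 3) * P.eval (PBd.eval (sz a)) +
        2 ^ n a * P3.eval (PBd.eval (sz a))) := by
        gcongr
        omega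
    _ = _ := by ring

end Pool.Agent.TMLib
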