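import Pool.Agent.Lib.MP_14a7d6_lc.ToTM

/-!
# A library of polynomial-time functions on lists, booleans and unary natural numbers
-/

namespace Pool.Agent.TMLib

open Function

variable {α β γ δ σ : Type} [TrEnc α] [TrEnc β] [TrEnc γ] [TrEnc δ] [TrEnc σ]

attribute [fun_prop] PTime

@[fun_prop] theorem PTime.id' : PTime (fun a : α => a) := PTime.id
@[fun_prop] theorem PTime.comp' {g : β → γ} {f : α → β} (hg : PTime g) (hf : PTime f) :
    PTime (fun a => g (f a)) := PTime.comp hg hf
attribute [fun_prop] PTime.const PTime.pair PTime.fst PTime.snd PTime.cons PTime.ite PTime.cond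

theorem PTime.of_eq {f g : α → β} (hf : PTime f) (h : ∀ a, g a = f a) : PTime g := by
  have : g = f := funext h
  rw [this]; exact hf

/-! ### Booleans -/

@[fun_prop] theorem PTime.not {f : α → Bool} (hf : PTime f) : PTime (fun a => !(f a)) := by
  refine PTime.of_eq (f := fun a => if f a = true then false else true) (by fun_prop) ?_
  intro a; cases f a <;> rfl

@[fun_prop] theorem PTime.and {f g : α → Bool} (hf : PTime f) (hg : PTime g) :
    PTime (fun a => f a && g a) := by
  refine PTime.of_eq (f := fun a => if f a = true then g a else false) (by fun_prop) ?_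
  intro a; cases f a <;> rfl

@[fun_prop] theorem PTime.or {f g : α → Bool} (hf : PTime f) (hg : PTime g) :
    PTime (fun a => f a || g a) := by
  refine PTime.of_eq (f := fun a => if f a = true then true else g a) (by fun_prop) ?_
  intro a; cases f a <;> rfl

@[fun_prop] theorem PTime.xor {f g : α → Bool} (hf : PTime f) (hg : PTime g) :
    PTime (fun a => (f a).xor (g a)) := by
  refine PTime.of_eq (f := fun a => if f a = true then !(g a) else g a) (by fun_prop) ?_
  intro a; cases f a <;> cases g a <;> rfl

/-- The conditional with a decidable proposition. -/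
theorem PTime.ite_prop {c : α → Prop} [DecidablePred c] {f g : α → β}
    (hc : PTime (fun a => decide (c a))) (hf : PTime f) (hg : PTime g) :
    PTime (fun a => if c a then f a else g a) := by
  refine PTime.of_eq (f := fun a => if decide (c a) = true then f a else g a)
    (PTime.ite hc hf hg) ?_
  intro a; by_cases h : c a <;> simp [h]

/-! ### Size bounds -/

theorem PB.fn {f : α → β} (hf : PTime f) : PB (fun a => TMLib.sz (f a)) := hf.pb_sz

theorem PB.length {f : α → List β} (hf : PTime f) : PB (fun a => (f a).length) :=
  hf.pb_sz.mono (fun a => (length_lt_sz _).le)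

theorem PB.nat {f : α → ℕ} (hf : PTime f) : PB f :=
  hf.pb_sz.mono (fun a => by rw [sz_nat]; omega)

theorem PB.pow {B : α → ℕ} (h : PB B) (n : ℕ) : PB (fun a => B a ^ n) := by
  induction n with
  | zero => simpa using PB.const 1
  | succ n ih => simpa [pow_succ] using ih.mul h

/-! ### Lists -/

@[fun_prop] theorem PTime.reverse {l : α → List γ} (hl : PTime l) :
    PTime (fun a => (l a).reverse) := by
  have h := PTime.foldl (F := fun (_ : α) (acc : List γ) (c : γ) => c :: acc)
    (g := fun _ => []) hl (PTime.const _) (by fun_prop) (fun a => sz (l a)) hl.pb_sz ?_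
  · refine h.of_eq (fun a => ?_)
    rw [List.foldl_flip_cons_eq_append']
    simp
  · intro a l₁ l₂ h
    rw [List.foldl_flip_cons_eq_append']
    simp only [h, List.append_nil]
    have h1 := sz_append l₁ l₂
    have h2 : ∀ l : List γ, sz l.reverse = sz l := by
      intro l
      induction l with
      | nil => rfl
      | cons c l ih =>
        have := sz_append l.reverse [c]
        simp only [List.reverse_cons, sz_cons, sz_nil] at this ⊢
        omega
    rw [h2]
    have := one_le_sz l₂
    omega

theorem sz_reverse (l : List γ) : sz l.reverse = sz l := by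
  induction l with
  | nil => rfl
  | cons c l ih =>
    have := sz_append l.reverse [c]
    simp only [List.reverse_cons, sz_cons, sz_nil] at this ⊢
    omega

/-- Right folds. -/
theorem PTime.foldr {l : α → List γ} {g : α → β} {F : α → γ → β → β} (hl : PTime l)
    (hg : PTime g) (hF : PTime (fun p : α × γ × β => F p.1 p.2.1 p.2.2))
    (B : α → ℕ) (hB : PB B)
    (hb : ∀ a l₁ l₂, l a = l₁ ++ l₂ → sz (l₂.foldr (F a) (g a)) ≤ B a) :
    PTime (fun a => (l a).foldr (F a) (g a)) := by
  have hF' : PTime (fun p : α × β × γ => F p.1 p.2.2 p.2.1) :=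
    hF.comp' (f := fun p : α × β × γ => (p.1, p.2.2, p.2.1)) (by fun_prop)
  have h := PTime.foldl (F := fun (a : α) (b : β) (c : γ) => F a c b)
    (g := g) hl.reverse hg hF' B hB ?_
  · exact h.of_eq (fun a => by rw [List.foldl_reverse])
  · intro a l₁ l₂ h
    have h' : l a = l₂.reverse ++ l₁.reverse := by
      have := congrArg List.reverse h
      simpa using this
    have := hb a _ _ h'
    rwa [List.foldr_reverse] at this

@[fun_prop] theorem PTime.append {l l' : α → List γ} (hl : PTime l) (hl' : PTime l') :
    PTime (fun a => l a ++ l' a) := by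
  have h := PTime.foldr (F := fun (_ : α) (c : γ) (acc : List γ) => c :: acc)
    (g := l') hl hl' (by fun_prop) (fun a => sz (l a) + sz (l' a)) (hl.pb_sz.add hl'.pb_sz) ?_
  · refine h.of_eq (fun a => ?_)
    simp
  · intro a l₁ l₂ h
    simp only [List.foldr_cons_eq_append', h]
    have h1 := sz_append l₁ l₂
    have h2 := sz_append l₂ (l' a)
    have := one_le_sz l₁
    omega

/-- The map function, with parameters. -/
theorem PTime.map {l : α → List γ} {F : α → γ → β} (hl : PTime l)
    (hF : PTime (fun p : α × γ => F p.1 p.2)) : PTime (fun a => (l a).map (F a)) := by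
  obtain ⟨P, hP⟩ := hF.pb_sz
  have h := PTime.foldr (F := fun (a : α) (c : γ) (acc : List β) => F a c :: acc)
    (g := fun _ => []) hl (PTime.const _)
    (PTime.cons (hF.comp' (f := fun p : α × γ × List β => (p.1, p.2.1)) (by fun_prop))
      (by fun_prop))
    (fun a => (l a).length * (P.eval (sz a + sz (l a) + 1) + 1) + 1)
    (((PB.length hl).mul ((((PB.sz.add hl.pb_sz).add (PB.const 1)).poly P).add
      (PB.const 1))).add (PB.const 1)) ?_
  · refine h.of_eq (fun a => ?_)
    simp
  · intro a l₁ l₂ h
    have e : l₂.foldr (fun (c : γ) (acc : List β) => F a c :: acc) [] = l₂.map (F a) := by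
      simp
    rw [e]
    refine (sz_le_of_forall _ (P.eval (sz a + sz (l a) + 1)) ?_).trans ?_
    · intro b hb
      obtain ⟨c, hc, rfl⟩ := List.mem_map.1 hb
      refine (hP (a, c)).trans (polyEval_mono _ ?_)
      simp only [sz_prod]
      have : c ∈ l a := by rw [h]; simp [hc]
      have := sz_le_of_mem this
      omega
    · rw [List.length_map]
      have : l₂.length ≤ (l a).length := by rw [h]; simp
      gcongr

/-- Zipping. -/
@[fun_prop] theorem PTime.zip {l : α → List γ} {l' : α → List δ} (hl : PTime l)
    (hl' : PTime l') : PTime (fun a => (l a).zip (l' a)) := by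
  have hstep : PTime (fun p : α × (List δ × List (γ × δ)) × γ =>
      (match p.2.1.1 with
      | [] => ([], p.2.1.2)
      | d :: r => (r, (p.2.2, d) :: p.2.1.2) : List δ × List (γ × δ))) :=
    PTime.listCases (l := fun p : α × (List δ × List (γ × δ)) × γ => p.2.1.1)
      (g := fun p => ([], p.2.1.2))
      (h := fun p d r => (r, (p.2.2, d) :: p.2.1.2))
      (by fun_prop) (by fun_prop) (by fun_prop)
  have key : ∀ (l : List γ) (l' : List δ) (out : List (γ × δ)),
      l.foldl (fun (s : List δ × List (γ × δ)) (c : γ) => (match s.1 with
      | [] => ([], s.2)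
      | d :: r => (r, (c, d) :: s.2) : List δ × List (γ × δ))) (l', out) =
      (l'.drop l.length, (l.zip l').reverse ++ out) := by
    intro l
    induction l with
    | nil => intro l' out; simp
    | cons c l ih =>
      intro l' out
      rw [List.foldl_cons]
      cases l' with
      | nil => simp only [ih]; simp
      | cons d l' => simp only [ih]; simp
  have h := PTime.foldl (F := fun (_ : α) (s : List δ × List (γ × δ)) (c : γ) => (match s.1 with
      | [] => ([], s.2)
      | d :: r => (r, (c, d) :: s.2) : List δ × List (γ × δ)))
    (g := fun a => (l' a, [])) hl (by fun_prop) hstep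
    (fun a => sz (l' a) + ((l a).length * (sz (l a) + sz (l' a) + 1 + 1) + 1) + 1)
    ((hl'.pb_sz.add (((PB.length hl).mul (((hl.pb_sz.add hl'.pb_sz).add (PB.const 1)).add
      (PB.const 1))).add (PB.const 1))).add (PB.const 1)) ?_
  · refine h.snd.reverse.of_eq (fun a => ?_)
    rw [key]; simp
  · intro a l₁ l₂ h
    rw [key]
    simp only [List.append_nil, sz_prod, sz_reverse]
    have h1 : sz ((l' a).drop l₁.length) ≤ sz (l' a) := by
      have := sz_append ((l' a).take l₁.length) ((l' a).drop l₁.length)
      rw [List.take_append_drop] at this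
      have := one_le_sz ((l' a).take l₁.length)
      omega
    have h2 : sz (l₁.zip (l' a)) ≤ (l a).length * (sz (l a) + sz (l' a) + 1 + 1) + 1 := by
      refine (sz_le_of_forall _ (sz (l a) + sz (l' a) + 1) ?_).trans ?_
      · rintro ⟨c, d⟩ hcd
        have hc := sz_le_of_mem (List.of_mem_zip hcd).1
        have hd := sz_le_of_mem (List.of_mem_zip hcd).2
        have h3 := sz_append l₁ l₂
        have := one_le_sz l₂
        simp only [sz_prod]
        rw [h]
        omega
      · have : (l₁.zip (l' a)).length ≤ (l a).length := by
          rw [h]; simp only [List.length_zip, List.length_append]; omega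
        gcongr
    omega

/-- `zipWith` with parameters. -/
theorem PTime.zipWith {l : α → List γ} {l' : α → List δ} {F : α → γ → δ → β} (hl : PTime l)
    (hl' : PTime l') (hF : PTime (fun p : α × γ × δ => F p.1 p.2.1 p.2.2)) :
    PTime (fun a => List.zipWith (F a) (l a) (l' a)) := by
  refine (PTime.map (l := fun a => (l a).zip (l' a)) (F := fun a p => F a p.1 p.2)
    (by fun_prop) hF).of_eq (fun a => ?_)
  rw [List.map_zip_eq_zipWith]
  rfl

@[fun_prop] theorem PTime.tail {l : α → List γ} (hl : PTime l) : PTime (fun a => (l a).tail) :=
  (PTime.listCases (l := l) (g := fun _ => []) (h := fun _ _ r => r) hl (by fun_prop)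
    (by fun_prop)).of_eq (fun a => by cases l a <;> rfl)

@[fun_prop] theorem PTime.headD {l : α → List γ} {d : α → γ} (hl : PTime l) (hd : PTime d) :
    PTime (fun a => (l a).headD (d a)) :=
  (PTime.listCases (l := l) (g := d) (h := fun _ c _ => c) hl hd
    (by fun_prop)).of_eq (fun a => by cases l a <;> rfl)

@[fun_prop] theorem PTime.isEmpty {l : α → List γ} (hl : PTime l) :
    PTime (fun a => (l a).isEmpty) :=
  (PTime.listCases (l := l) (g := fun _ => true) (h := fun _ _ _ => false) hl (by fun_prop)
    (by fun_prop)).of_eq (fun a => by cases l a <;> rfl)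

/-! ### Unary natural numbers -/

/-- A unary natural number, seen as a list. -/
@[fun_prop] theorem PTime.units {n : α → ℕ} (hn : PTime n) :
    PTime (fun a => List.replicate (n a) ()) := by
  refine (PTime.ofEncEq (f := fun n : ℕ => List.replicate n ()) (fun n => ?_)).comp' hn
  induction n with
  | zero => rfl
  | succ n ih => rw [List.replicate_succ, enc_cons, ih]; rfl

@[fun_prop] theorem PTime.length {l : α → List γ} (hl : PTime l) :
    PTime (fun a => (l a).length) := by
  have h : PTime (fun a => (l a).map (fun _ => ())) := PTime.map (F := fun _ _ => ()) hl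
    (by fun_prop)
  refine h.congrEnc (fun a => a) (fun _ => rfl) (fun a => ?_)
  induction l a with
  | nil => rfl
  | cons c l ih => rw [List.length_cons, List.map_cons, enc_cons, ← ih]; rfl

@[fun_prop] theorem PTime.replicate {n : α → ℕ} {c : α → γ} (hn : PTime n) (hc : PTime c) :
    PTime (fun a => List.replicate (n a) (c a)) := by
  refine (PTime.map (l := fun a => List.replicate (n a) ()) (F := fun a _ => c a)
    (by fun_prop) (by fun_prop)).of_eq (fun a => ?_)
  simp

@[fun_prop] theorem PTime.succ {n : α → ℕ} (hn : PTime n) : PTime (fun a => n a + 1) :=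
  (PTime.cons (PTime.const ()) (PTime.units hn)).congrEnc (fun a => a) (fun _ => rfl)
    (fun a => by
      rw [← List.replicate_succ]
      induction n a with
      | zero => rfl
      | succ n ih => rw [List.replicate_succ, enc_cons, enc_succ, ih]; rfl)

@[fun_prop] theorem PTime.add {n m : α → ℕ} (hn : PTime n) (hm : PTime m) :
    PTime (fun a => n a + m a) :=
  (PTime.length (PTime.append (PTime.units hn) (PTime.units hm))).of_eq (fun a => by simp)

theorem PTime.iterate {n : α → ℕ} {g : α → β} {F : α → β → β} (hn : PTime n) (hg : PTime g)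
    (hF : PTime (fun p : α × β => F p.1 p.2)) (B : α → ℕ) (hB : PB B)
    (hb : ∀ a, ∀ i ≤ n a, sz ((F a)^[i] (g a)) ≤ B a) : PTime (fun a => (F a)^[n a] (g a)) := by
  have key : ∀ (f : β → β) (n : ℕ) (b : β),
      (List.replicate n ()).foldl (fun b _ => f b) b = f^[n] b := by
    intro f n
    induction n with
    | zero => intro b; rfl
    | succ n ih => intro b; rw [List.replicate_succ, List.foldl_cons, ih]; rfl
  refine (PTime.foldl (l := fun a => List.replicate (n a) ()) (g := g)
    (F := fun a b _ => F a b) (by fun_prop) hg
    (hF.comp' (f := fun p : α × β × Unit => (p.1, p.2.1)) (by fun_prop)) B hB ?_).of_eq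
    (fun a => by rw [key])
  intro a l₁ l₂ h
  have h1 : l₁ = List.replicate l₁.length () := by
    refine List.eq_replicate_iff.2 ⟨rfl, fun b _ => rfl⟩
  have h2 : l₁.length ≤ n a := by
    have := congrArg List.length h
    simp only [List.length_replicate, List.length_append] at this
    omega
  rw [h1, key]
  exact hb a _ h2

theorem sz_tail_le (l : List γ) : sz l.tail ≤ sz l := by
  cases l with
  | nil => simp
  | cons c l => simp only [List.tail_cons, sz_cons]; omega

@[fun_prop] theorem PTime.drop {n : α → ℕ} {l : α → List γ} (hn : PTime n) (hl : PTime l) :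
    PTime (fun a => (l a).drop (n a)) := by
  have key : ∀ (i : ℕ) (l : List γ), (List.tail)^[i] l = l.drop i := by
    intro i
    induction i with
    | zero => intro l; rfl
    | succ i ih => intro l; rw [Function.iterate_succ_apply, ih]; cases l <;> simp
  refine (PTime.iterate (F := fun _ l => List.tail l) hn hl (by fun_prop)
    (fun a => sz (l a)) hl.pb_sz ?_).of_eq (fun a => (key _ _).symm)
  intro a i _
  induction i with
  | zero => rfl
  | succ i ih =>
    rw [Function.iterate_succ_apply']
    exact (sz_tail_le _).trans (ih (by omega))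

@[fun_prop] theorem PTime.take {n : α → ℕ} {l : α → List γ} (hn : PTime n) (hl : PTime l) :
    PTime (fun a => (l a).take (n a)) := by
  refine (PTime.map (l := fun a => (l a).zip (List.replicate (n a) ()))
    (F := fun _ p => p.1) (by fun_prop) (by fun_prop)).of_eq (fun a => ?_)
  have : ∀ (l : List γ) (n : ℕ), l.take n = (l.zip (List.replicate n ())).map (fun p => p.1) := by
    intro l
    induction l with
    | nil => intro n; simp
    | cons c l ih =>
      intro n
      cases n with
      | zero => simp
      | succ n => simp [List.replicate_succ, ih]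
  exact this _ _

@[fun_prop] theorem PTime.sub {n m : α → ℕ} (hn : PTime n) (hm : PTime m) :
    PTime (fun a => n a - m a) :=
  (PTime.length (PTime.drop hm (PTime.units hn))).of_eq (fun a => by simp)

@[fun_prop] theorem PTime.getD {n : α → ℕ} {l : α → List γ} {d : α → γ} (hn : PTime n)
    (hl : PTime l) (hd : PTime d) : PTime (fun a => (l a).getD (n a) (d a)) := by
  refine (PTime.headD (PTime.drop hn hl) hd).of_eq (fun a => ?_)
  have : ∀ (l : List γ) (n : ℕ) (d : γ), l.getD n d = (l.drop n).headD d := by
    intro l
    induction l with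
    | nil => intro n d; simp
    | cons c l ih =>
      intro n d
      cases n with
      | zero => simp
      | succ n => simp
  exact this _ _ _

@[fun_prop] theorem PTime.flatten {l : α → List (List γ)} (hl : PTime l) :
    PTime (fun a => (l a).flatten) := by
  refine (PTime.foldr (F := fun (_ : α) (c acc : List γ) => c ++ acc) (g := fun _ => [])
    hl (by fun_prop) (by fun_prop) (fun a => sz (l a)) hl.pb_sz ?_).of_eq (fun a => ?_)
  · intro a l₁ l₂ h
    have h0 := sz_append l₁ l₂
    have h1 := one_le_sz l₁
    have h2 : sz (l₂.foldr (fun (c acc : List γ) => c ++ acc) []) ≤ sz l₂ := by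
      clear h h0
      induction l₂ with
      | nil => simp
      | cons c l ih =>
        have := sz_append c (l.foldr (fun (c acc : List γ) => c ++ acc) [])
        simp only [List.foldr_cons, sz_cons]
        omega
    rw [h]
    omega
  · induction l a with
    | nil => rfl
    | cons c l ih => simp [ih]

theorem PTime.flatMap {l : α → List γ} {F : α → γ → List β} (hl : PTime l)
    (hF : PTime (fun p : α × γ => F p.1 p.2)) : PTime (fun a => (l a).flatMap (F a)) := by
  refine (PTime.flatten (PTime.map (F := F) hl hF)).of_eq (fun a => ?_)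
  rw [List.flatMap_def]

@[fun_prop] theorem PTime.mul {n m : α → ℕ} (hn : PTime n) (hm : PTime m) :
    PTime (fun a => n a * m a) := by
  refine (PTime.length (PTime.flatMap (l := fun a => List.replicate (n a) ())
    (F := fun a _ => List.replicate (m a) ()) (by fun_prop) (by fun_prop))).of_eq (fun a => ?_)
  induction n a with
  | zero => simp
  | succ n ih =>
    rw [List.replicate_succ, List.flatMap_cons, List.length_append, ← ih]
    simp only [List.length_replicate]
    ring

/-- Boolean folds. -/
theorem PTime.foldlBool {l : α → List γ} {g : α → Bool} {F : α → Bool → γ → Bool} (hl : PTime l)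
    (hg : PTime g) (hF : PTime (fun p : α × Bool × γ => F p.1 p.2.1 p.2.2)) :
    PTime (fun a => (l a).foldl (F a) (g a)) :=
  PTime.foldl hl hg hF (fun _ => 3) (PB.const 3) (fun _ _ _ _ => sz_bool_le _)

theorem PTime.any {l : α → List γ} {F : α → γ → Bool} (hl : PTime l)
    (hF : PTime (fun p : α × γ => F p.1 p.2)) : PTime (fun a => (l a).any (F a)) := by
  refine (PTime.foldlBool (g := fun _ => false) (F := fun a b c => b || F a c) hl (by fun_prop)
    (PTime.or (by fun_prop)
      (hF.comp' (f := fun p : α × Bool × γ => (p.1, p.2.2)) (by fun_prop)))).of_eq (fun a => ?_)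
  have : ∀ (l : List γ) (b : Bool), l.foldl (fun b c => b || F a c) b = (b || l.any (F a)) := by
    intro l
    induction l with
    | nil => intro b; simp
    | cons c l ih => intro b; rw [List.foldl_cons, ih, List.any_cons, Bool.or_assoc]
  rw [this]; simp

theorem PTime.all {l : α → List γ} {F : α → γ → Bool} (hl : PTime l)
    (hF : PTime (fun p : α × γ => F p.1 p.2)) : PTime (fun a => (l a).all (F a)) := by
  refine (PTime.not (PTime.any (F := fun a c => !(F a c)) hl (PTime.not hF))).of_eq
    (fun a => ?_)
  rw [List.not_any_eq_all_not]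
  simp

theorem PTime.filter {l : α → List γ} {F : α → γ → Bool} (hl : PTime l)
    (hF : PTime (fun p : α × γ => F p.1 p.2)) : PTime (fun a => (l a).filter (F a)) := by
  refine (PTime.flatMap (F := fun a c => if F a c = true then [c] else []) hl
    (PTime.ite hF (by fun_prop) (by fun_prop))).of_eq (fun a => ?_)
  induction l a with
  | nil => rfl
  | cons c l ih =>
    rw [List.flatMap_cons, ← ih]
    by_cases h : F a c = true
    · simp [h]
    · simp [h]

end Pool.Agent.TMLib
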