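import Mathlib

/-!
# Tree polynomials: the multilinear coefficient detects disjoint connected subgraphs
-/

namespace Pool.Agent.DCS

open MvPolynomial Finset

section coeff

variable {σ ι : Type*}

theorem coeff_add_ne {f g : MvPolynomial σ ℕ} {d : σ →₀ ℕ} :
    coeff d (f + g) ≠ 0 ↔ coeff d f ≠ 0 ∨ coeff d g ≠ 0 := by
  rw [coeff_add]
  omega

theorem coeff_sum_ne {s : Finset ι} {f : ι → MvPolynomial σ ℕ} {d : σ →₀ ℕ} :
    coeff d (∑ i ∈ s, f i) ≠ 0 ↔ ∃ i ∈ s, coeff d (f i) ≠ 0 := by
  rw [coeff_sum, Ne, Finset.sum_eq_zero_iff]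
  push Not
  rfl

theorem coeff_mul_ne {f g : MvPolynomial σ ℕ} {d : σ →₀ ℕ} :
    coeff d (f * g) ≠ 0 ↔ ∃ d₁ d₂, d₁ + d₂ = d ∧ coeff d₁ f ≠ 0 ∧ coeff d₂ g ≠ 0 := by
  classical
  rw [coeff_mul, Ne, Finset.sum_eq_zero_iff]
  push Not
  constructor
  · rintro ⟨⟨d₁, d₂⟩, h, hne⟩
    rw [Finset.HasAntidiagonal.mem_antidiagonal] at h
    exact ⟨d₁, d₂, h, left_ne_zero_of_mul hne, right_ne_zero_of_mul hne⟩
  · rintro ⟨d₁, d₂, h, h1, h2⟩
    exact ⟨(d₁, d₂), Finset.HasAntidiagonal.mem_antidiagonal.2 h, mul_ne_zero h1 h2⟩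

theorem coeff_prod_ne {s : Finset ι} {f : ι → MvPolynomial σ ℕ} : ∀ {d : σ →₀ ℕ},
    coeff d (∏ i ∈ s, f i) ≠ 0 ↔
      ∃ e : ι → σ →₀ ℕ, (∀ i ∈ s, coeff (e i) (f i) ≠ 0) ∧ ∑ i ∈ s, e i = d := by
  classical
  induction s using Finset.induction_on with
  | empty =>
    intro d
    rw [Finset.prod_empty, coeff_one]
    simp only [Finset.notMem_empty, Finset.sum_empty]
    constructor
    · intro h
      refine ⟨fun _ => 0, by simp, ?_⟩
      by_contra h'
      simp [h'] at h
    · rintro ⟨_, _, h⟩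
      simp [h]
  | insert a s ha ih =>
    intro d
    rw [Finset.prod_insert ha, coeff_mul_ne]
    constructor
    · rintro ⟨d₁, d₂, h, h1, h2⟩
      obtain ⟨e, he, hs⟩ := ih.1 h2
      refine ⟨fun i => if i = a then d₁ else e i, ?_, ?_⟩
      · intro i hi
        rcases Finset.mem_insert.1 hi with rfl | hi
        · simpa using h1
        · have : i ≠ a := fun h => ha (h ▸ hi)
          simpa [this] using he i hi
      · rw [Finset.sum_insert ha, if_pos rfl, ← h, ← hs]
        congr 1
        refine Finset.sum_congr rfl (fun i hi => ?_)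
        have : i ≠ a := fun h => ha (h ▸ hi)
        simp [this]
    · rintro ⟨e, he, hs⟩
      rw [Finset.sum_insert ha] at hs
      exact ⟨e a, ∑ i ∈ s, e i, hs, he a (Finset.mem_insert_self _ _),
        ih.2 ⟨e, fun i hi => he i (Finset.mem_insert_of_mem hi), rfl⟩⟩

theorem coeff_X_ne {v : σ} {d : σ →₀ ℕ} :
    coeff d (X v : MvPolynomial σ ℕ) ≠ 0 ↔ d = Finsupp.single v 1 := by
  classical
  rw [coeff_X]
  constructor
  · intro h
    by_contra h'
    rw [if_neg (fun h2 => h' h2.symm)] at h
    exact h rfl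
  · rintro rfl; simp

theorem coeff_one_ne {d : σ →₀ ℕ} :
    coeff d (1 : MvPolynomial σ ℕ) ≠ 0 ↔ d = 0 := by
  classical
  rw [coeff_one]
  constructor
  · intro h
    by_contra h'
    rw [if_neg (fun h2 => h' h2.symm)] at h
    exact h rfl
  · rintro rfl; simp

end coeff

section conn

variable {V : Type*} (G : SimpleGraph V)

/-- Adjacency inside a set. -/
def AdjIn (S : Set V) (a b : V) : Prop := G.Adj a b ∧ a ∈ S ∧ b ∈ S

/-- Connectedness of a vertex set. -/
def Conn (S : Set V) : Prop :=
  S.Nonempty ∧ ∀ u ∈ S, ∀ w ∈ S, Relation.ReflTransGen (AdjIn G S) u w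

variable {G}

theorem AdjIn.symm {S : Set V} {a b : V} (h : AdjIn G S a b) : AdjIn G S b a :=
  ⟨h.1.symm, h.2.2, h.2.1⟩

theorem reflTransGen_symm {S : Set V} {a b : V} (h : Relation.ReflTransGen (AdjIn G S) a b) :
    Relation.ReflTransGen (AdjIn G S) b a := by
  induction h with
  | refl => exact .refl
  | tail _ h ih => exact (Relation.ReflTransGen.single h.symm).trans ih

theorem reflTransGen_mono {S T : Set V} (hST : S ⊆ T) {a b : V}
    (h : Relation.ReflTransGen (AdjIn G S) a b) : Relation.ReflTransGen (AdjIn G T) a b :=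
  Relation.ReflTransGen.mono (fun _ _ h => ⟨h.1, hST h.2.1, hST h.2.2⟩) _ _ h

theorem conn_of_root {S : Set V} {v : V} (hv : v ∈ S)
    (h : ∀ w ∈ S, Relation.ReflTransGen (AdjIn G S) w v) : Conn G S :=
  ⟨⟨v, hv⟩, fun u hu w hw => (h u hu).trans (reflTransGen_symm (h w hw))⟩

theorem conn_singleton (v : V) : Conn G {v} :=
  conn_of_root (Set.mem_singleton v) (fun w hw => by rw [Set.mem_singleton_iff.1 hw])

theorem Conn.union {S T : Set V} {u v : V} (hS : Conn G S) (hT : Conn G T) (hu : u ∈ S)
    (hv : v ∈ T) (h : G.Adj u v) : Conn G (S ∪ T) := by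
  refine conn_of_root (v := u) (Or.inl hu) ?_
  rintro w (hw | hw)
  · exact reflTransGen_mono Set.subset_union_left (hS.2 w hw u hu)
  · exact (reflTransGen_mono Set.subset_union_right (hT.2 w hw v hv)).tail
      ⟨h.symm, Or.inr hv, Or.inl hu⟩

/-- A connected set with at least two elements splits into two adjacent connected sets, one of
which contains the given root. -/
theorem Conn.split {S : Set V} (hS : Conn G S) {v : V} (hv : v ∈ S) (hne : S ≠ {v}) :
    ∃ S₁ S₂ : Set V, ∃ u, S₁ ∪ S₂ = S ∧ Disjoint S₁ S₂ ∧ v ∈ S₁ ∧ u ∈ S₂ ∧ G.Adj v u ∧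
      Conn G S₁ ∧ Conn G S₂ := by
  -- a neighbour of `v` in `S`
  obtain ⟨w, hw, hwv⟩ : ∃ w ∈ S, w ≠ v := by
    by_contra h
    push Not at h
    exact hne (Set.Subset.antisymm (fun x hx => h x hx) (Set.singleton_subset_iff.2 hv))
  obtain ⟨u, hu⟩ : ∃ u, AdjIn G S v u := by
    rcases Relation.ReflTransGen.cases_head (hS.2 v hv w hw) with h | ⟨u, hu, _⟩
    · exact absurd h.symm hwv
    · exact ⟨u, hu⟩
  have huv : u ≠ v := hu.1.ne'
  let T : Set V := S \ {v}
  let S₂ : Set V := {w | w ∈ T ∧ Relation.ReflTransGen (AdjIn G T) u w}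
  have huS₂ : u ∈ S₂ := ⟨⟨hu.2.2, huv⟩, .refl⟩
  have hvS₂ : v ∉ S₂ := fun h => h.1.2 rfl
  have hS₂S : S₂ ⊆ S := fun x hx => hx.1.1
  refine ⟨S \ S₂, S₂, u, Set.sdiff_union_of_subset hS₂S, Set.disjoint_sdiff_left, ⟨hv, hvS₂⟩,
    huS₂, hu.1, ?_, ?_⟩
  · refine conn_of_root (v := v) ⟨hv, hvS₂⟩ ?_
    intro w hw
    have key : ∀ w, Relation.ReflTransGen (AdjIn G S) w v → w ∈ S \ S₂ →
        Relation.ReflTransGen (AdjIn G (S \ S₂)) w v := by
      intro w hw
      induction hw using Relation.ReflTransGen.head_induction_on with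
      | refl => intro _; exact .refl
      | @head a b hab _ ih =>
        intro ha
        by_cases hav : a = v
        · rw [hav]
        · have hb : b ∈ S \ S₂ := by
            refine ⟨hab.2.2, fun hb => ha.2 ⟨⟨ha.1, hav⟩, ?_⟩⟩
            exact hb.2.tail ⟨hab.1.symm, hb.1, ⟨ha.1, hav⟩⟩
          exact Relation.ReflTransGen.head ⟨hab.1, ha, hb⟩ (ih hb)
    exact key w (hS.2 w hw.1 v hv) hw
  · refine conn_of_root (v := u) huS₂ ?_
    intro w hw
    refine reflTransGen_symm ?_
    have key : ∀ w, Relation.ReflTransGen (AdjIn G T) u w →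
        Relation.ReflTransGen (AdjIn G S₂) u w := by
      intro w hw
      induction hw with
      | refl => exact .refl
      | @tail a b hua hab ih =>
        exact ih.tail ⟨hab.1, ⟨hab.2.1, hua⟩, ⟨hab.2.2, hua.tail hab⟩⟩
    exact key w hw.2

theorem connected_of_conn {S : Set V} (h : Conn G S) :
    ((⊤ : G.Subgraph).induce S).Connected := by
  obtain ⟨v, hv⟩ := h.1
  refine ⟨?_⟩
  have : Nonempty ((⊤ : G.Subgraph).induce S).verts := ⟨⟨v, hv⟩⟩
  refine SimpleGraph.Connected.mk (fun x y => ?_)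
  have key : ∀ (a b : V), Relation.ReflTransGen (AdjIn G S) a b → ∀ (ha : a ∈ S) (hb : b ∈ S),
      (((⊤ : G.Subgraph).induce S).coe).Reachable ⟨a, ha⟩ ⟨b, hb⟩ := by
    intro a b hab
    induction hab with
    | refl => intro ha hb; exact SimpleGraph.Reachable.refl _
    | @tail b c _ hbc ih =>
      intro ha hc
      refine (ih ha hbc.2.1).trans (SimpleGraph.Adj.reachable ?_)
      simp only [SimpleGraph.Subgraph.coe_adj, SimpleGraph.Subgraph.induce_adj,
        SimpleGraph.Subgraph.top_adj]
      exact ⟨hbc.2.1, hc, hbc.1⟩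
  exact key x.1 y.1 (h.2 _ x.2 _ y.2) x.2 y.2

theorem conn_of_connected {D : G.Subgraph} (h : D.Connected) : Conn G D.verts := by
  obtain ⟨hc⟩ := h
  have := hc.nonempty
  obtain ⟨v⟩ := hc.nonempty
  refine ⟨⟨v.1, v.2⟩, fun u hu w hw => ?_⟩
  have h1 := (SimpleGraph.reachable_iff_reflTransGen _ _).1 (hc.preconnected ⟨u, hu⟩ ⟨w, hw⟩)
  have key : ∀ x y : D.verts, Relation.ReflTransGen D.coe.Adj x y →
      Relation.ReflTransGen (AdjIn G D.verts) x.1 y.1 := by
    intro x y hxy
    induction hxy with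
    | refl => exact .refl
    | @tail b c _ hbc ih => exact ih.tail ⟨D.adj_sub hbc, b.2, c.2⟩
  exact key _ _ h1

end conn

section tree

variable {n : ℕ}

/-- The exponent vector of a set. -/
noncomputable def ind (S : Finset (Fin n)) : Fin n →₀ ℕ :=
  Finsupp.equivFunOnFinite.symm (fun v => if v ∈ S then 1 else 0)

@[simp] theorem ind_apply (S : Finset (Fin n)) (v : Fin n) :
    ind S v = if v ∈ S then 1 else 0 := rfl

theorem ind_support (S : Finset (Fin n)) : (ind S).support = S := by
  ext v; simp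

theorem ind_singleton (v : Fin n) : ind {v} = Finsupp.single v 1 := by
  ext w
  simp only [ind_apply, Finset.mem_singleton, Finsupp.single_apply]
  by_cases h : w = v
  · simp [h]
  · rw [if_neg h, if_neg (fun h' => h h'.symm)]

theorem ind_add {S T : Finset (Fin n)} (h : Disjoint S T) : ind S + ind T = ind (S ∪ T) := by
  ext v
  simp only [Finsupp.add_apply, ind_apply, Finset.mem_union]
  by_cases h1 : v ∈ S
  · have h2 : v ∉ T := Finset.disjoint_left.1 h h1
    simp [h1, h2]
  · simp [h1]

variable (G : SimpleGraph (Fin n)) [DecidableRel G.Adj]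

/-- Tree polynomials: `treeP G A j v` enumerates homomorphic images in `G[A]` of plane trees rooted
at `v`. -/
noncomputable def treeP (A : Finset (Fin n)) : ℕ → Fin n → MvPolynomial (Fin n) ℕ
  | 0, _ => 0
  | j + 1, v => (if v ∈ A then X v else 0) +
      treeP A j v * ∑ u, if G.Adj v u then treeP A j u else 0

theorem treeP_sound (A : Finset (Fin n)) (j : ℕ) : ∀ (v : Fin n) (d : Fin n →₀ ℕ),
    coeff d (treeP G A j v) ≠ 0 →
      v ∈ d.support ∧ d.support ⊆ A ∧ Conn G (d.support : Set (Fin n)) := by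
  induction j with
  | zero => intro v d h; exact absurd (coeff_zero d) h
  | succ j ih =>
    intro v d h
    rw [treeP, coeff_add_ne] at h
    rcases h with h | h
    · by_cases hv : v ∈ A
      · rw [if_pos hv, coeff_X_ne] at h
        subst h
        have : (Finsupp.single v 1 : Fin n →₀ ℕ).support = {v} :=
          Finsupp.support_single _ one_ne_zero
        rw [this]
        refine ⟨by simp, by simpa using hv, ?_⟩
        rw [Finset.coe_singleton]
        exact conn_singleton v
      · rw [if_neg hv] at h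
        exact absurd (coeff_zero d) h
    · rw [coeff_mul_ne] at h
      obtain ⟨d₁, d₂, rfl, h1, h2⟩ := h
      rw [coeff_sum_ne] at h2
      obtain ⟨u, _, h2⟩ := h2
      by_cases hu : G.Adj v u
      · rw [if_pos hu] at h2
        obtain ⟨a1, a2, a3⟩ := ih v d₁ h1
        obtain ⟨b1, b2, b3⟩ := ih u d₂ h2
        have hs : (d₁ + d₂).support = d₁.support ∪ d₂.support := by
          ext x
          simp only [Finsupp.mem_support_iff, Finsupp.add_apply, Finset.mem_union]
          omega
        rw [hs]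
        refine ⟨Finset.mem_union_left _ a1, Finset.union_subset a2 b2, ?_⟩
        rw [Finset.coe_union]
        exact a3.union b3 a1 b1 hu
      · rw [if_neg hu] at h2
        exact absurd (coeff_zero _) h2

theorem treeP_complete (A : Finset (Fin n)) (j : ℕ) : ∀ (v : Fin n) (S : Finset (Fin n)),
    v ∈ S → S ⊆ A → Conn G (S : Set (Fin n)) → S.card ≤ j →
      coeff (ind S) (treeP G A j v) ≠ 0 := by
  induction j with
  | zero =>
    intro v S hv _ _ hc
    have := Finset.card_pos.2 ⟨v, hv⟩
    omega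
  | succ j ih =>
    intro v S hv hA hS hc
    rw [treeP, coeff_add_ne]
    by_cases hSv : (S : Set (Fin n)) = {v}
    · left
      have : S = {v} := by exact_mod_cast hSv
      rw [if_pos (hA hv), coeff_X_ne, this, ind_singleton]
    · right
      obtain ⟨S₁, S₂, u, hun, hdis, hv1, hu2, hadj, hc1, hc2⟩ := hS.split hv hSv
      classical
      set T₁ : Finset (Fin n) := S.filter (fun x => x ∈ S₁) with hT₁
      set T₂ : Finset (Fin n) := S.filter (fun x => x ∈ S₂) with hT₂
      have hT1 : (T₁ : Set (Fin n)) = S₁ := by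
        ext x
        simp only [hT₁, Finset.coe_filter, Set.mem_ofPred_eq]
        constructor
        · exact fun h => h.2
        · intro h
          refine ⟨?_, h⟩
          have : x ∈ (S : Set (Fin n)) := hun ▸ Or.inl h
          exact this
      have hT2 : (T₂ : Set (Fin n)) = S₂ := by
        ext x
        simp only [hT₂, Finset.coe_filter, Set.mem_ofPred_eq]
        constructor
        · exact fun h => h.2
        · intro h
          refine ⟨?_, h⟩
          have : x ∈ (S : Set (Fin n)) := hun ▸ Or.inr h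
          exact this
      have hd : Disjoint T₁ T₂ := by
        rw [← Finset.disjoint_coe, hT1, hT2]; exact hdis
      have hU : T₁ ∪ T₂ = S := by
        have : ((T₁ ∪ T₂ : Finset (Fin n)) : Set (Fin n)) = S := by
          rw [Finset.coe_union, hT1, hT2, hun]
        exact_mod_cast this
      have hcard : T₁.card + T₂.card = S.card := by
        rw [← Finset.card_union_of_disjoint hd, hU]
      have hv' : v ∈ T₁ := by
        have : v ∈ (T₁ : Set (Fin n)) := by rw [hT1]; exact hv1
        exact this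
      have hu' : u ∈ T₂ := by
        have : u ∈ (T₂ : Set (Fin n)) := by rw [hT2]; exact hu2
        exact this
      have hp1 := Finset.card_pos.2 ⟨v, hv'⟩
      have hp2 := Finset.card_pos.2 ⟨u, hu'⟩
      rw [coeff_mul_ne]
      refine ⟨ind T₁, ind T₂, by rw [ind_add hd, hU], ?_, ?_⟩
      · exact ih v T₁ hv' (fun x hx => hA (by rw [← hU]; exact Finset.mem_union_left _ hx))
          (by rw [hT1]; exact hc1) (by omega)
      · rw [coeff_sum_ne]
        refine ⟨u, Finset.mem_univ _, ?_⟩
        rw [if_pos hadj]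
        exact ih u T₂ hu' (fun x hx => hA (by rw [← hU]; exact Finset.mem_union_right _ hx))
          (by rw [hT2]; exact hc2) (by omega)

end tree

end Pool.Agent.DCS
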