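import Pool.Agent.Lib.MP_14a7d6_lc.PTime

/-!
# From time-bounded functions on words to Turing machines
-/

namespace Pool.Agent.TMLib

open Function Turing

/-- Read the input: from stack `b` (reversed input) to `main`. -/
def loopIn : SProg :=
  .loop .b tNonempty
    (.ite .b tTrue
      (.seq (.pop .b) (.seq (.push .main false) (.seq (.push .main false)
        (.seq (.push .main true) (.push .main true)))))
      (.seq (.pop .b) (.seq (.push .main false) (.push .main true))))

theorem loopIn_exec (l : List Bool) : ∀ {r : List Bool},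
    ∃ t ≤ 8 * l.length + 1, Exec loopIn (mk (enc r).code [] l [])
      (mk (enc (l.reverse ++ r)).code [] [] []) t := by
  induction l with
  | nil => intro r; exact ⟨1, by simp, Exec.loopF rfl⟩
  | cons x l ih =>
    intro r
    cases x
    · obtain ⟨t, ht, h⟩ := ih (r := false :: r)
      refine ⟨_, ?_, (Exec.loopT rfl (Exec.iteF rfl (Exec.seq exPopB (Exec.seq exPushMain
        exPushMain))) h).cast ?_ rfl⟩
      · simp only [List.length_cons]; omega
      · simp
    · obtain ⟨t, ht, h⟩ := ih (r := true :: r)
      refine ⟨_, ?_, (Exec.loopT rfl (Exec.iteT rfl (Exec.seq exPopB (Exec.seq exPushMain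
        (Exec.seq exPushMain (Exec.seq exPushMain exPushMain))))) h).cast ?_ rfl⟩
      · simp only [List.length_cons]; omega
      · simp

/-- Read the input from stack `a`. -/
def pIn : SProg := .seq moveAB (.seq (.push .main false) loopIn)

theorem pIn_exec (w : List Bool) :
    ∃ t ≤ 12 * w.length + 3, Exec pIn (mk [] w [] []) (ms ((enc w).code ++ [])) t := by
  obtain ⟨t, ht, h⟩ := loopIn_exec w.reverse (r := [])
  simp only [List.length_reverse] at ht
  have h1 := moveAB_exec w (m := []) (b := []) (c := [])
  simp only [List.append_nil] at h1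
  refine ⟨_, ?_, (Exec.seq h1 (Exec.seq exPushMain h)).cast ?_ rfl⟩
  · omega
  · simp

/-- Write the output: from `main` to `a` (reversed). -/
def loopOut : SProg :=
  .loop .main tTrue
    (.seq (.pop .main) (.ite .main tTrue
      (.seq (.pop .main) (.seq (.pop .main) (.seq (.pop .main) (.push .a true))))
      (.seq (.pop .main) (.push .a false))))

theorem loopOut_exec (l : List Bool) : ∀ {a : List Bool},
    ∃ t ≤ 8 * l.length + 1, Exec loopOut (mk (enc l).code a [] [])
      (mk [false] (l.reverse ++ a) [] []) t := by
  induction l with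
  | nil => intro a; exact ⟨1, by simp, Exec.loopF rfl⟩
  | cons x l ih =>
    intro a
    cases x
    · obtain ⟨t, ht, h⟩ := ih (a := false :: a)
      refine ⟨_, ?_, (Exec.loopT rfl (Exec.seq exPopMain (Exec.iteF rfl (Exec.seq exPopMain
        exPushA))) h).cast ?_ rfl⟩
      · simp only [List.length_cons]; omega
      · simp
    · obtain ⟨t, ht, h⟩ := ih (a := true :: a)
      refine ⟨_, ?_, (Exec.loopT rfl (Exec.seq exPopMain (Exec.iteT rfl (Exec.seq exPopMain
        (Exec.seq exPopMain (Exec.seq exPopMain exPushA))))) h).cast ?_ rfl⟩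
      · simp only [List.length_cons]; omega
      · simp

/-- Write the output on stack `b`. -/
def pOut : SProg := .seq loopOut (.seq (.pop .main) moveAB)

theorem pOut_exec (w : List Bool) :
    ∃ t ≤ 12 * w.length + 3, Exec pOut (ms ((enc w).code ++ [])) (mk [] [] w []) t := by
  obtain ⟨t, ht, h⟩ := loopOut_exec w (a := [])
  have h1 := moveAB_exec w.reverse (m := []) (b := []) (c := [])
  simp only [List.append_nil, List.reverse_reverse, List.length_reverse] at h1 h
  have h0 : Exec loopOut (ms ((enc w).code ++ [])) (mk [false] w.reverse [] []) t := by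
    rw [List.append_nil]; exact h
  exact ⟨_, by omega, (Exec.seq h0 (Exec.seq exPopMain h1))⟩

/-- The complete program. -/
def pFull (p : SProg) : SProg := .seq pIn (.seq p pOut)

/-- A function on words computed in time `T` is computed by a Turing machine in time `T`, up to
a linear term. -/
theorem TimeB.machine {f : List Bool → List Bool} {T : List Bool → ℕ} (h : TimeB f T) :
    ∃ p : SProg, ∀ w : List Bool, Nonempty (TM2OutputsInTime (toTM p) w (some (f w))
      (T w + 12 * w.length + 12 * (f w).length + 7)) := by
  obtain ⟨p, hp⟩ := h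
  refine ⟨pFull p, fun w => ?_⟩
  obtain ⟨t1, ht1, h1⟩ := pIn_exec w
  obtain ⟨t2, ht2, h2⟩ := hp w []
  obtain ⟨t3, ht3, h3⟩ := pOut_exec (f w)
  have hE : Exec (pFull p) (update (fun _ => []) Reg.a w) (update (fun _ => []) Reg.b (f w))
      (t1 + (t2 + t3)) := by
    have e1 : (update (fun _ => []) Reg.a w : St) = mk [] w [] [] := by
      funext k; cases k <;> rfl
    have e2 : (update (fun _ => []) Reg.b (f w) : St) = mk [] [] (f w) [] := by
      funext k; cases k <;> rfl
    rw [e1, e2]
    exact h1.seq (h2.seq h3)
  have hle : t1 + (t2 + t3) + 1 ≤ T w + 12 * w.length + 12 * (f w).length + 7 := by omega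
  obtain ⟨⟨e, he⟩⟩ := hE.outputs
  exact ⟨⟨e, he.trans hle⟩⟩

/-- Polynomial-time functions on words are computable in polynomial time in the sense of
Mathlib. -/
theorem PTime.machine {f : List Bool → List Bool} (h : PTime f) :
    Nonempty (TM2ComputableInPolyTime (_root_.id : List Bool → List Bool)
      (_root_.id : List Bool → List Bool) f) := by
  have hsz := h.pb_sz
  obtain ⟨T, hT, hf⟩ := h
  obtain ⟨p, hp⟩ := hf.machine
  have hB : PB (fun w : List Bool => T w + 12 * w.length + 12 * (f w).length + 7) := by
    refine ((hT.add ((PB.const 12).mul (PB.sz.mono fun a => (length_lt_sz a).le))).add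
      ((PB.const 12).mul (hsz.mono fun a => (length_lt_sz (f a)).le))).add (PB.const 7)
  obtain ⟨P, hP⟩ := hB
  have hlen : ∀ w : List Bool, sz w ≤ (4 * Polynomial.X + 1 : Polynomial ℕ).eval w.length := by
    intro w
    have := sz_bools_le w
    simpa using this
  refine ⟨{ tm := toTM p, inputAlphabet := Equiv.refl _, outputAlphabet := Equiv.refl _,
            time := P.comp (4 * Polynomial.X + 1), outputsFun := fun w => ?_ }⟩
  have h1 := hp w
  have h2 : ∀ u v : List Bool, u = w → v = f w → TM2OutputsInTime (toTM p) u (some v)
      ((P.comp (4 * Polynomial.X + 1)).eval w.length) := by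
    rintro u v rfl rfl
    refine ⟨h1.some.toEvalsTo, h1.some.steps_le_m.trans ?_⟩
    refine (hP _).trans ?_
    rw [Polynomial.eval_comp]
    exact polyEval_mono _ (hlen _)
  exact h2 _ _ (List.map_id _) (List.map_id _)

end Pool.Agent.TMLib
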